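import Pool.Agent.Helper96.VH.Defs
import Pool.Agent.Helper96.SP.QWORDS
import Pool.Agent.Helper96.SP.PWD

/-!
# The derivation induced by an algebraic operator is algebraic (package ALGD, by helper32)
-/

open CategoryTheory MonoidalCategory Limits BraidedCategory

universe u v w

namespace Pool.Agent.Helper96.VH

open Pool.Agent.TH90.AB Pool.Agent.TH90.Kim Pool.Agent.Helper96.Kim Pool.Agent.Helper96.SP

set_option linter.unusedSectionVars false

variable {𝒜 : Type u} [Category.{v} 𝒜] [MonoidalCategory 𝒜] [SymmetricCategory 𝒜]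
  [Preadditive 𝒜] [MonoidalPreadditive 𝒜] [Linear ℚ 𝒜] [MonoidalLinear ℚ 𝒜]
  [hdual : ∀ X : 𝒜, HasRightDual X] {K : Type w} [Field K] [CharZero K] {F : Realisation 𝒜 K}

namespace ALGDX

omit [hdual : ∀ X : 𝒜, HasRightDual X] in
lemma update_zero {M : 𝒜} {n : ℕ} (v : Fin n → F.V M) (j : Fin n) :
    wd F n (Function.update v j 0) = 0 := by
  rw [← WD.wdM_apply]
  exact MultilinearMap.map_update_zero _ _ _

omit [hdual : ∀ X : 𝒜, HasRightDual X] in
lemma update_add {M : 𝒜} {n : ℕ} (v : Fin n → F.V M) (j : Fin n) (x y : F.V M) :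
    wd F n (Function.update v j (x + y)) =
      wd F n (Function.update v j x) + wd F n (Function.update v j y) := by
  rw [← WD.wdM_apply, ← WD.wdM_apply, ← WD.wdM_apply]
  exact MultilinearMap.map_update_add _ _ _ _ _

omit [hdual : ∀ X : 𝒜, HasRightDual X] in
lemma update_smul {M : 𝒜} {n : ℕ} (v : Fin n → F.V M) (j : Fin n) (c : K) (x : F.V M) :
    wd F n (Function.update v j (c • x)) = c • wd F n (Function.update v j x) := by
  rw [← WD.wdM_apply, ← WD.wdM_apply]
  exact MultilinearMap.map_update_smul _ _ _ _ _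

omit [hdual : ∀ X : 𝒜, HasRightDual X] in
/-- words span -/
theorem unique {M : 𝒜} (y : F.V M →ₗ[K] F.V M) (n : ℕ)
    (E E' : F.V (T M n) →ₗ[K] F.V (T M n)) (h : IsDer F y n E) (h' : IsDer F y n E') :
    E = E' := by
  refine LinearMap.ext fun x => ?_
  have h1 : x ∈ Submodule.span K (Set.range fun w : Fin n → F.V M => wd F n (id ∘ w)) :=
    WD.span_wd F M (b := id) (by rw [Set.range_id, Submodule.span_univ]) n trivial
  induction h1 using Submodule.span_induction with
  | mem x hx =>
    obtain ⟨v, rfl⟩ := hx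
    simp only [Function.id_comp]
    rw [h v, h' v]
  | zero => rw [_root_.map_zero, _root_.map_zero]
  | add x y _ _ h1 h2 => rw [_root_.map_add, _root_.map_add, h1, h2]
  | smul c x _ h => rw [_root_.map_smul, _root_.map_smul, h]

include hdual in
theorem exists_alg {M : 𝒜} (y : F.V M →ₗ[K] F.V M) (hy : y ∈ AlgOp F M) (n : ℕ) :
    ∃ E ∈ AlgOp F (T M n), IsDer F y n E := by
  unfold AlgOp at hy
  induction hy using Submodule.span_induction with
  | mem x hx =>
    obtain ⟨f, rfl⟩ := hx
    refine ⟨∑ j, F.map (ins f n j), Submodule.sum_mem _ fun j _ => Submodule.subset_span ⟨_, rfl⟩,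
      fun v => ?_⟩
    rw [LinearMap.sum_apply]
    exact Finset.sum_congr rfl fun j _ => wd_ins F f n j v
  | zero =>
    refine ⟨0, Submodule.zero_mem _, fun v => ?_⟩
    rw [LinearMap.zero_apply, Finset.sum_eq_zero]
    intro j _
    rw [LinearMap.zero_apply]
    exact update_zero v j
  | add x y _ _ hx hy =>
    obtain ⟨E, hE, hE'⟩ := hx
    obtain ⟨E2, hE2, hE2'⟩ := hy
    refine ⟨E + E2, Submodule.add_mem _ hE hE2, fun v => ?_⟩
    rw [LinearMap.add_apply, hE' v, hE2' v, ← Finset.sum_add_distrib]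
    refine Finset.sum_congr rfl fun j _ => ?_
    rw [LinearMap.add_apply, update_add]
  | smul c x _ hx =>
    obtain ⟨E, hE, hE'⟩ := hx
    refine ⟨c • E, Submodule.smul_mem _ _ hE, fun v => ?_⟩
    rw [LinearMap.smul_apply, hE' v, Finset.smul_sum]
    refine Finset.sum_congr rfl fun j _ => ?_
    rw [LinearMap.smul_apply, update_smul]

end ALGDX

theorem alg_der {M : 𝒜} (y : F.V M →ₗ[K] F.V M) (hy : y ∈ AlgOp F M) (n : ℕ)
    (E : F.V (T M n) →ₗ[K] F.V (T M n)) (h : IsDer F y n E) : E ∈ AlgOp F (T M n) := by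
  obtain ⟨E', hE', h'⟩ := ALGDX.exists_alg y hy n
  rw [ALGDX.unique y n E E' h h']
  exact hE'

end Pool.Agent.Helper96.VH
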