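import Pool.Agent.Helper96.VH.Defs
import Pool.Agent.Helper96.SP.RSEPA
import Pool.Agent.Helper96.SP.QPARU

/-!
# Package DER: the derivation of the tensor power which is induced by an even operator
-/

open CategoryTheory MonoidalCategory Limits BraidedCategory

universe u v w

namespace Pool.Agent.Helper96.VH

open Pool.Agent.TH90.AB Pool.Agent.TH90.Kim Pool.Agent.Helper96.Kim Pool.Agent.Helper96.SP

set_option linter.unusedSectionVars false

variable {𝒜 : Type u} [Category.{v} 𝒜] [MonoidalCategory 𝒜] [SymmetricCategory 𝒜]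
  [Preadditive 𝒜] [MonoidalPreadditive 𝒜] [Linear ℚ 𝒜] [MonoidalLinear ℚ 𝒜]
  [hdual : ∀ X : 𝒜, HasRightDual X] {K : Type w} [Field K] [CharZero K] {F : Realisation 𝒜 K}

namespace DerX

variable {M : 𝒜} {ι : Type} [Fintype ι] [DecidableEq ι]

/-- The even derivation of the tensor power. -/
noncomputable def der (b : Module.Basis ι K (F.V M)) (A : F.V M →ₗ[K] F.V M) :
    ∀ n : ℕ, F.V (T M n) →ₗ[K] F.V (T M n)
  | 0 => 0
  | n + 1 => Classical.choose (SepA.kun b (X := T M n) (Y := T M (n + 1))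
      (F.ext ∘ₗ der b A n + (F.ext.compl₂ A)))

theorem der_succ (b : Module.Basis ι K (F.V M)) (A : F.V M →ₗ[K] F.V M) (n : ℕ)
    (y : F.V (T M n)) (x : F.V M) :
    der b A (n + 1) (F.ext y x) = F.ext (der b A n y) x + F.ext y (A x) :=
  Classical.choose_spec (SepA.kun b (X := T M n) (Y := T M (n + 1))
      (F.ext ∘ₗ der b A n + (F.ext.compl₂ A))) y x

theorem par_der (b : Module.Basis ι K (F.V M)) (A : F.V M →ₗ[K] F.V M)
    (hA : ∀ x, F.par M (A x) = A (F.par M x)) (n : ℕ) :
    ∀ z : F.V (T M n), F.par _ (der b A n z) = der b A n (F.par _ z) := by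
  induction n with
  | zero =>
    intro z
    change F.par _ (0 : F.V (T M 0)) = (0 : F.V (T M 0))
    rw [_root_.map_zero]
  | succ n ih =>
    intro z
    obtain ⟨m, y, x, rfl⟩ := F.exists_sum (X := T M n) (Y := M) z
    have h1 : ∀ i, F.par (T M (n + 1)) (der b A (n + 1) (F.ext (y i) (x i))) =
        der b A (n + 1) (F.par (T M (n + 1)) (F.ext (y i) (x i))) := by
      intro i
      have e1 : F.par (T M (n + 1)) (F.ext (y i) (x i)) = F.ext (F.par _ (y i)) (F.par _ (x i)) :=
        F.par_ext _ _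
      rw [e1, der_succ, der_succ, _root_.map_add]
      have e2 : F.par (T M (n + 1)) (F.ext (der b A n (y i)) (x i)) =
          F.ext (F.par _ (der b A n (y i))) (F.par _ (x i)) := F.par_ext _ _
      have e3 : F.par (T M (n + 1)) (F.ext (y i) (A (x i))) =
          F.ext (F.par _ (y i)) (F.par _ (A (x i))) := F.par_ext _ _
      rw [e2, e3, ih, hA]
    rw [map_sum, map_sum, map_sum, map_sum]
    exact Finset.sum_congr rfl fun i _ => h1 i

theorem der_perm {φ : Fam M} (hφ : PA φ) (b : Module.Basis ι K (F.V M)) (δ : ι → ℚ)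
    (hδ : ∀ i, δ i = 1 ∨ δ i = -1) (hb : ∀ i, F.par M (b i) = (δ i : K) • b i)
    (A : F.V M →ₗ[K] F.V M) (hA : ∀ x, F.par M (A x) = A (F.par M x)) (n : ℕ)
    (g : Equiv.Perm (Fin n)) : ∀ z : F.V (T M n),
      der b A n (F.map (φ n g : T M n ⟶ T M n) z) = F.map (φ n g : T M n ⟶ T M n) (der b A n z) := by
  refine WD.ind (P := fun n g => ∀ z : F.V (T M n),
      der b A n (F.map (φ n g : T M n ⟶ T M n) z) =
        F.map (φ n g : T M n ⟶ T M n) (der b A n z)) ?_ ?_ ?_ ?_ n g
  · intro n z
    have e : (φ n 1 : T M n ⟶ T M n) = 𝟙 _ := map_one (φ n)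
    rw [e, F.map_id, F.map_id]
  · intro n g h hg hh z
    have e : (φ n (g * h) : T M n ⟶ T M n) = (φ n h : T M n ⟶ T M n) ≫ (φ n g : T M n ⟶ T M n) :=
      map_mul (φ n) g h
    rw [e, F.map_comp, F.map_comp, hg, hh]
  · intro n g hg z
    obtain ⟨m, y, x, rfl⟩ := F.exists_sum (X := T M n) (Y := M) z
    rw [map_sum, map_sum, map_sum, map_sum]
    refine Finset.sum_congr rfl fun i _ => ?_
    rw [hφ.up, der_succ]
    have e1 : F.map ((φ n g : T M n ⟶ T M n) ▷ M : T M n ⊗ M ⟶ T M n ⊗ M) (F.ext (y i) (x i)) =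
        F.ext (F.map (φ n g : T M n ⟶ T M n) (y i)) (x i) := F.whiskerRight _ _ _
    have e2 := der_succ b A n (F.map (φ n g : T M n ⟶ T M n) (y i)) (x i)
    have e3 := F.whiskerRight (Z := M) (φ n g : T M n ⟶ T M n) (der b A n (y i)) (x i)
    have e4 := F.whiskerRight (Z := M) (φ n g : T M n ⟶ T M n) (y i) (A (x i))
    refine (congrArg (der b A (n + 1)) e1).trans ?_
    refine e2.trans ?_
    rw [hg]
    refine Eq.trans ?_ (_root_.map_add _ _ _).symm
    rw [e3, e4]
  · intro n z
    obtain ⟨B, hB⟩ := wd_basis F b (n + 2)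
    rw [hφ.swap]
    suffices h : der b A (n + 2) ∘ₗ F.map (sw (T M n) M) = F.map (sw (T M n) M) ∘ₗ der b A (n + 2) by
      exact LinearMap.congr_fun h z
    refine B.ext fun w => ?_
    rw [hB]
    change der b A (n + 2) (F.map (sw (T M n) M)
      (F.ext (F.ext (wd F n fun j => b (w j.succ.succ)) (b (w (Fin.succ 0)))) (b (w 0)))) =
      F.map (sw (T M n) M) (der b A (n + 2)
        (F.ext (F.ext (wd F n fun j => b (w j.succ.succ)) (b (w (Fin.succ 0)))) (b (w 0))))
    generalize (wd F n fun j => b (w j.succ.succ)) = z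
    generalize w (Fin.succ 0) = p
    generalize w 0 = q
    have hsw : ∀ (z : F.V (T M n)) (x y : F.V M) (s t : ℚ), (s = 1 ∨ s = -1) → (t = 1 ∨ t = -1) →
        F.par M x = (s : K) • x → F.par M y = (t : K) • y →
        F.map (sw (T M n) M) (F.ext (F.ext z x) y) =
          ((if s = -1 ∧ t = -1 then -1 else 1 : ℚ) : K) • F.ext (F.ext z y) x := by
      intro z x y s t hs ht hx hy
      unfold sw
      rw [F.map_comp, F.map_comp, F.assoc, F.whiskerLeft, WDS.koszul F x y s t hs ht hx hy,
        _root_.map_smul, _root_.map_smul, F.assoc_inv]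
    have hAq : ∀ a, F.par M (A (b a)) = (δ a : K) • A (b a) := by
      intro a
      rw [hA, hb, _root_.map_smul]
    have d1 : ∀ (z : F.V (T M n)) (x y : F.V M), der b A (n + 2) (F.ext (F.ext z x) y) =
        F.ext (F.ext (der b A n z) x) y + F.ext (F.ext z (A x)) y +
          F.ext (F.ext z x) (A y) := by
      intro z x y
      have e1 := der_succ b A (n + 1) (F.ext z x) y
      have e2 := der_succ b A n z x
      rw [e2, _root_.map_add, LinearMap.add_apply] at e1
      exact e1
    rw [hsw z _ _ _ _ (hδ p) (hδ q) (hb p) (hb q), _root_.map_smul, d1, d1, _root_.map_add,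
      _root_.map_add, hsw _ _ _ _ _ (hδ p) (hδ q) (hb p) (hb q),
      hsw _ _ _ _ _ (hδ p) (hδ q) (hAq p) (hb q),
      hsw _ _ _ _ _ (hδ p) (hδ q) (hb p) (hAq q)]
    simp only [smul_add]
    abel

theorem der_rh {φ : Fam M} (hφ : PA φ) (b : Module.Basis ι K (F.V M)) (δ : ι → ℚ)
    (hδ : ∀ i, δ i = 1 ∨ δ i = -1) (hb : ∀ i, F.par M (b i) = (δ i : K) • b i)
    (A : F.V M →ₗ[K] F.V M) (hA : ∀ x, F.par M (A x) = A (F.par M x)) (n : ℕ) (e : QS n)
    (z : F.V (T M n)) : der b A n (F.map (rh φ n e) z) = F.map (rh φ n e) (der b A n z) := by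
  rw [WD.rh_eq, WD.map_sum', WD.map_sum', map_sum]
  refine Finset.sum_congr rfl fun g _ => ?_
  rw [F.map_smul, F.map_smul, _root_.map_smul, der_perm hφ b δ hδ hb A hA]

theorem isDer (b : Module.Basis ι K (F.V M)) (A : F.V M →ₗ[K] F.V M) (n : ℕ) :
    IsDer F A n (der b A n) := by
  induction n with
  | zero =>
    intro v
    rw [Finset.univ_eq_empty, Finset.sum_empty]
    rfl
  | succ n ih =>
    intro v
    have h0 : wd F (n + 1) v = F.ext (wd F n fun k => v k.succ) (v 0) := rfl
    rw [h0, der_succ, ih, Fin.sum_univ_succ, map_sum, LinearMap.sum_apply]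
    refine (_root_.add_comm _ _).trans ?_
    refine congrArg₂ (· + ·) ?_ ?_
    · have h1 : wd F (n + 1) (Function.update v 0 (A (v 0))) =
          F.ext (wd F n fun k => Function.update v 0 (A (v 0)) k.succ)
            (Function.update v 0 (A (v 0)) 0) := rfl
      rw [h1, Function.update_self]
      have h2 : (fun k => v k.succ) = fun k : Fin n => Function.update v 0 (A (v 0)) k.succ := by
        funext k
        rw [Function.update_of_ne (Fin.succ_ne_zero k)]
      rw [h2]
    · refine Finset.sum_congr rfl fun j _ => ?_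
      have h1 : wd F (n + 1) (Function.update v j.succ (A (v j.succ))) =
          F.ext (wd F n fun k => Function.update v j.succ (A (v j.succ)) k.succ)
            (Function.update v j.succ (A (v j.succ)) 0) := rfl
      rw [h1, Function.update_of_ne (Fin.succ_ne_zero j).symm]
      congr 2
      congr 1
      funext k
      by_cases hk : k = j
      · subst hk
        rw [Function.update_self, Function.update_self]
      · rw [Function.update_of_ne hk, Function.update_of_ne (fun h => hk (Fin.succ_injective _ h))]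

end DerX

theorem exists_der {M : 𝒜} {φ : Fam M} (hφ : PA φ) (y : F.V M →ₗ[K] F.V M) (hy : Ev F y) (n : ℕ) :
    ∃ E : F.V (T M n) →ₗ[K] F.V (T M n), IsDer F y n E ∧
      (∀ z : QS n, ∀ x, E (F.map (rh φ n z) x) = F.map (rh φ n z) (E x)) ∧ Ev F E := by
  obtain ⟨d, b, δ, hδ, hb⟩ := PARUX.exists_basis F M
  exact ⟨DerX.der b y n, DerX.isDer b y n, fun z x => DerX.der_rh hφ b δ hδ hb y hy n z x,
    DerX.par_der b y hy n⟩

/-- words span -/
theorem der_unique {M : 𝒜} (y : F.V M →ₗ[K] F.V M) (n : ℕ)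
    (E E' : F.V (T M n) →ₗ[K] F.V (T M n)) (h : IsDer F y n E) (h' : IsDer F y n E') :
    E = E' := by
  have hspan : (⊤ : Submodule K (F.V M)) ≤ Submodule.span K (Set.range (id : F.V M → F.V M)) := by
    intro x _
    exact Submodule.subset_span ⟨x, rfl⟩
  refine LinearMap.ext_on (top_le_iff.1 (WD.span_wd F M (b := id) hspan n)) ?_
  rintro _ ⟨w, rfl⟩
  change E (wd F n (id ∘ w)) = E' (wd F n (id ∘ w))
  rw [h, h']

end Pool.Agent.Helper96.VH
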