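import Pool.Agent.Helper96.SP.Defs3

/-!
# Derivations of tensor powers induced by an operator
-/

open CategoryTheory MonoidalCategory Limits BraidedCategory

universe u v w

namespace Pool.Agent.Helper96.VH

open Pool.Agent.TH90.AB Pool.Agent.TH90.Kim Pool.Agent.Helper96.Kim Pool.Agent.Helper96.SP

noncomputable section

variable {𝒜 : Type u} [Category.{v} 𝒜] [MonoidalCategory 𝒜] [SymmetricCategory 𝒜]
  [Preadditive 𝒜] [MonoidalPreadditive 𝒜] [Linear ℚ 𝒜] [MonoidalLinear ℚ 𝒜]
  {K : Type w} [Field K] [CharZero K]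

/-- `E` is the operator on the tensor power which `y` induces by the rule of Leibniz. -/
def IsDer (F : Realisation 𝒜 K) {M : 𝒜} (y : F.V M →ₗ[K] F.V M) (n : ℕ)
    (E : F.V (T M n) →ₗ[K] F.V (T M n)) : Prop :=
  ∀ v : Fin n → F.V M, E (wd F n v) = ∑ j, wd F n (Function.update v j (y (v j)))

/-- `y` preserves the parity. -/
def Ev (F : Realisation 𝒜 K) {M : 𝒜} (y : F.V M →ₗ[K] F.V M) : Prop :=
  ∀ x, F.par M (y x) = y (F.par M x)

/-- The central element `∑ h (e^* e) h⁻¹`. -/
def zc {n : ℕ} (e : QS n) : QS n := ∑ h : Equiv.Perm (Fin n),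
  MonoidAlgebra.single h 1 * (adj e * e) * MonoidAlgebra.single h⁻¹ 1

/-- The second moment of the contents. -/
def mom {ι : Type} [Fintype ι] [DecidableEq ι] {n : ℕ} (q : (Fin n → ι) → ℚ) (a i : ι) : ℚ :=
  ∑ w, q w * cnt w a * cnt w i

end

end Pool.Agent.Helper96.VH
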