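import Pool.Agent.Helper96.VH.Defs
import Pool.Agent.Helper96.SP.PWD
import Pool.Agent.Helper96.SP.QWORDS

/-!
# Package EQV of board VH: the coordinates of the contraction
-/

set_option autoImplicit false

namespace Pool.Agent.Helper38.VH

open Finset

section

variable {K ι : Type*} [Field K] [Fintype ι] [DecidableEq ι]

omit [DecidableEq ι] in
/-- exchange of `v` and `update v k a` -/
theorem swap_sum {n : ℕ} (k : Fin n) (s : (Fin n → ι) → K) (X : ι → ι → K)
    (hs : ∀ v a, X a (v k) ≠ 0 → s (Function.update v k a) = s v)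
    (h : (Fin n → ι) → (Fin n → ι) → K) :
    ∑ v, ∑ a, s v * (X (v k) a * h (Function.update v k a) v) =
      ∑ v, ∑ a, s v * (X a (v k) * h v (Function.update v k a)) := by
  rw [← Finset.sum_product', ← Finset.sum_product']
  refine Finset.sum_nbij' (fun p => (Function.update p.1 k p.2, p.1 k))
    (fun p => (Function.update p.1 k p.2, p.1 k)) (fun _ _ => by simp) (fun _ _ => by simp)
    (fun p _ => by simp) (fun p _ => by simp) ?_
  rintro ⟨v, a⟩ -
  simp only [Function.update_self, Function.update_idem, Function.update_eq_self]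
  by_cases hX : X (v k) a = 0
  · simp [hX]
  · have h1 := hs (Function.update v k a) (v k) (by rwa [Function.update_self])
    rw [Function.update_idem, Function.update_eq_self] at h1
    rw [h1]

theorem core {n : ℕ} (s : (Fin n → ι) → K) (X : ι → ι → K)
    (hs : ∀ v k a, X a (v k) ≠ 0 → s (Function.update v k a) = s v)
    (h : (Fin (n + 1) → ι) → (Fin (n + 1) → ι) → K) (i i' : ι) :
    ∑ v : Fin n → ι, s v * ((∑ j : Fin (n + 1), ∑ a,
        X ((Fin.snoc v i' : Fin (n + 1) → ι) j) a *
          h (Function.update (Fin.snoc v i') j a) (Fin.snoc v i)) -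
      ∑ j : Fin (n + 1), ∑ a, X a ((Fin.snoc v i : Fin (n + 1) → ι) j) *
          h (Fin.snoc v i') (Function.update (Fin.snoc v i) j a)) =
      (∑ a, X i' a * ∑ v : Fin n → ι, s v * h (Fin.snoc v a) (Fin.snoc v i)) -
        ∑ a, (∑ v : Fin n → ι, s v * h (Fin.snoc v i') (Fin.snoc v a)) * X a i := by
  have e1 : ∀ v : Fin n → ι, (∑ j : Fin (n + 1), ∑ a,
        X ((Fin.snoc v i' : Fin (n + 1) → ι) j) a *
          h (Function.update (Fin.snoc v i') j a) (Fin.snoc v i)) =
      (∑ k : Fin n, ∑ a, X (v k) a * h (Fin.snoc (Function.update v k a) i') (Fin.snoc v i)) +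
        ∑ a, X i' a * h (Fin.snoc v a) (Fin.snoc v i) := by
    intro v
    rw [Fin.sum_univ_castSucc]
    simp only [Fin.snoc_castSucc, Fin.snoc_last, Fin.update_snoc_last, Fin.snoc_update]
  have e2 : ∀ v : Fin n → ι, (∑ j : Fin (n + 1), ∑ a,
        X a ((Fin.snoc v i : Fin (n + 1) → ι) j) *
          h (Fin.snoc v i') (Function.update (Fin.snoc v i) j a)) =
      (∑ k : Fin n, ∑ a, X a (v k) * h (Fin.snoc v i') (Fin.snoc (Function.update v k a) i)) +
        ∑ a, X a i * h (Fin.snoc v i') (Fin.snoc v a) := by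
    intro v
    rw [Fin.sum_univ_castSucc]
    simp only [Fin.snoc_castSucc, Fin.snoc_last, Fin.update_snoc_last, Fin.snoc_update]
  have e3 : ∑ v : Fin n → ι, s v *
      (∑ k : Fin n, ∑ a, X (v k) a * h (Fin.snoc (Function.update v k a) i') (Fin.snoc v i)) =
      ∑ v : Fin n → ι, s v *
      (∑ k : Fin n, ∑ a, X a (v k) * h (Fin.snoc v i') (Fin.snoc (Function.update v k a) i)) := by
    simp only [Finset.mul_sum]
    refine Finset.sum_comm.trans (Eq.trans ?_ Finset.sum_comm)
    refine Finset.sum_congr rfl fun k _ => ?_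
    exact swap_sum k s X (fun v a => hs v k a) fun u v => h (Fin.snoc u i') (Fin.snoc v i)
  simp only [e1, e2, mul_sub, mul_add, Finset.sum_sub_distrib, Finset.sum_add_distrib, e3]
  rw [add_sub_add_left_eq_sub]
  congr 1
  · simp only [Finset.mul_sum]
    rw [Finset.sum_comm]
    exact Finset.sum_congr rfl fun a _ => Finset.sum_congr rfl fun v _ => by ring
  · simp only [Finset.mul_sum, Finset.sum_mul]
    rw [Finset.sum_comm]
    exact Finset.sum_congr rfl fun a _ => Finset.sum_congr rfl fun v _ => by ring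

/-- sum over the words with a given last letter -/
theorem sum_last {n : ℕ} (i : ι) (g : (Fin (n + 1) → ι) → K) :
    ∑ w with w (Fin.last n) = i, g w = ∑ v : Fin n → ι, g (Fin.snoc v i) := by
  refine Finset.sum_nbij' (fun w => Fin.init w) (fun v => Fin.snoc v i) (fun _ _ => by simp)
    (fun _ _ => by simp) ?_ (fun _ _ => by simp) ?_
  · intro w hw
    rw [← (mem_filter.1 hw).2, Fin.snoc_init_self]
  · intro w hw
    rw [← (mem_filter.1 hw).2, Fin.snoc_init_self]

end


end Pool.Agent.Helper38.VH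

open CategoryTheory MonoidalCategory Limits BraidedCategory

universe u v w

namespace Pool.Agent.Helper96.VH

open Pool.Agent.TH90.AB Pool.Agent.TH90.Kim Pool.Agent.Helper96.Kim Pool.Agent.Helper96.SP

variable {𝒜 : Type u} [Category.{v} 𝒜] [MonoidalCategory 𝒜] [SymmetricCategory 𝒜]
  [Preadditive 𝒜] [MonoidalPreadditive 𝒜] [Linear ℚ 𝒜] [MonoidalLinear ℚ 𝒜]
  [hdual : ∀ X : 𝒜, HasRightDual X] {K : Type w} [Field K] [CharZero K] {F : Realisation 𝒜 K}

omit hdual in
theorem EQVX.eqv' {M : 𝒜} {ι : Type} [Fintype ι] [DecidableEq ι] (b : Module.Basis ι K (F.V M))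
    (δ : ι → ℚ) (hb : ∀ i, F.par M (b i) = (δ i : K) • b i) (n : ℕ)
    (B : Module.Basis (Fin (n + 1) → ι) K (F.V (T M (n + 1))))
    (hB : ∀ w, B w = wd F (n + 1) fun j => b (w j))
    (C : (F.V (T M (n + 1)) →ₗ[K] F.V (T M (n + 1))) →ₗ[K] (F.V M →ₗ[K] F.V M))
    (hC : ∀ (H : F.V (T M (n + 1)) →ₗ[K] F.V (T M (n + 1))) (i : ι),
        C H (b i) = ∑ i', (∑ w with w (Fin.last n) = i,
          ((∏ k : Fin n, δ (w k.castSucc) : ℚ) : K) *
            B.repr (H (B w)) (Function.update w (Fin.last n) i')) • b i')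
    (x : F.V M →ₗ[K] F.V M) (hx : Ev F x) (E : F.V (T M (n + 1)) →ₗ[K] F.V (T M (n + 1)))
    (hE : IsDer F x (n + 1) E) (H : F.V (T M (n + 1)) →ₗ[K] F.V (T M (n + 1))) :
    C (E ∘ₗ H - H ∘ₗ E) = x ∘ₗ C H - C H ∘ₗ x := by
  classical
  obtain ⟨X, hXd⟩ : ∃ X : ι → ι → K, ∀ a i, X a i = b.repr (x (b i)) a := ⟨_, fun _ _ => rfl⟩
  have hxb : ∀ i, x (b i) = ∑ a, X a i • b a := by
    intro i
    simp only [hXd]
    exact (b.sum_repr (x (b i))).symm
  have hX : ∀ a i, X a i ≠ 0 → δ a = δ i := by
    intro a i ha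
    have h1 := hx (b i)
    rw [hb, map_smul, hxb, map_sum] at h1
    have h2 := congrArg (fun y => b.repr y a) h1
    simp only [map_smul, hb, smul_smul, Finset.smul_sum] at h2
    rw [b.repr_sum_self, b.repr_sum_self] at h2
    have h3 : ((δ a : ℚ) : K) = ((δ i : ℚ) : K) := by
      rw [mul_comm] at h2
      exact mul_right_cancel₀ ha h2
    exact_mod_cast h3
  obtain ⟨s, hs⟩ : ∃ s : (Fin n → ι) → K, ∀ v, s v = ((∏ k : Fin n, δ (v k) : ℚ) : K) :=
    ⟨_, fun _ => rfl⟩
  have hsX : ∀ v k a, X a (v k) ≠ 0 → s (Function.update v k a) = s v := by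
    intro v k a ha
    rw [hs, hs]
    congr 1
    refine Finset.prod_congr rfl fun l _ => ?_
    by_cases hl : l = k
    · subst hl
      rw [Function.update_self, hX a _ ha]
    · rw [Function.update_of_ne hl]
  -- the operator `E` on words
  have hEB : ∀ w, E (B w) = ∑ j, ∑ a, X a (w j) • B (Function.update w j a) := by
    intro w
    rw [hB, hE]
    refine Finset.sum_congr rfl fun j _ => ?_
    rw [hxb, ← WD.wdM_apply, MultilinearMap.map_update_sum]
    refine Finset.sum_congr rfl fun a _ => ?_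
    rw [MultilinearMap.map_update_smul, WD.wdM_apply, hB]
    congr 2
    funext l
    by_cases hl : l = j
    · subst hl
      rw [Function.update_self, Function.update_self]
    · rw [Function.update_of_ne hl, Function.update_of_ne hl]
  have hEr : ∀ y w', B.repr (E y) w' =
      ∑ j, ∑ a, X (w' j) a * B.repr y (Function.update w' j a) := by
    intro y w'
    have h1 : (B.coord w') ∘ₗ E =
        ∑ j, ∑ a, X (w' j) a • B.coord (Function.update w' j a) := by
      refine B.ext fun w => ?_
      rw [LinearMap.comp_apply, hEB, map_sum]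
      simp only [LinearMap.coe_sum, Finset.sum_apply, LinearMap.smul_apply, map_sum, map_smul,
        Module.Basis.coord_apply, Module.Basis.repr_self, Finsupp.single_apply, smul_eq_mul]
      refine Finset.sum_congr rfl fun j _ => ?_
      rw [Finset.sum_eq_single (w' j), Finset.sum_eq_single (w j)]
      · congr 1
        refine if_congr ?_ rfl rfl
        constructor
        · intro h
          rw [← h, Function.update_idem, Function.update_eq_self]
        · intro h
          conv_lhs => rw [h]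
          rw [Function.update_idem, Function.update_eq_self]
      · intro a _ ha
        rw [if_neg, mul_zero]
        intro h
        apply ha
        rw [h, Function.update_self]
      · intro h
        exact absurd (Finset.mem_univ _) h
      · intro a _ ha
        rw [if_neg, mul_zero]
        intro h
        apply ha
        rw [← h, Function.update_self]
      · intro h
        exact absurd (Finset.mem_univ _) h
    have h2 := LinearMap.congr_fun h1 y
    simpa only [LinearMap.comp_apply, LinearMap.coe_sum, Finset.sum_apply, LinearMap.smul_apply,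
      Module.Basis.coord_apply, smul_eq_mul] using h2
  have hc : ∀ (H : F.V (T M (n + 1)) →ₗ[K] F.V (T M (n + 1))) (i i' : ι),
      b.repr (C H (b i)) i' =
        ∑ v : Fin n → ι, s v * B.repr (H (B (Fin.snoc v i))) (Fin.snoc v i') := by
    intro H i i'
    rw [hC, b.repr_sum_self, Pool.Agent.Helper38.VH.sum_last]
    refine Finset.sum_congr rfl fun v _ => ?_
    rw [Fin.update_snoc_last, hs]
    simp only [Fin.snoc_castSucc]
  refine b.ext fun i => b.repr.injective (Finsupp.ext fun i' => ?_)
  have hl : b.repr (x (C H (b i))) i' = ∑ a, X i' a * b.repr (C H (b i)) a := by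
    conv_lhs => rw [← b.sum_repr (C H (b i))]
    simp only [map_sum, map_smul, Finsupp.coe_finsetSum, Finset.sum_apply, Finsupp.smul_apply,
      smul_eq_mul, ← hXd]
    exact Finset.sum_congr rfl fun a _ => mul_comm _ _
  have hr : b.repr (C H (x (b i))) i' = ∑ a, b.repr (C H (b a)) i' * X a i := by
    rw [hxb]
    simp only [map_sum, map_smul, Finsupp.coe_finsetSum, Finset.sum_apply, Finsupp.smul_apply,
      smul_eq_mul]
    exact Finset.sum_congr rfl fun a _ => mul_comm _ _
  have hR : b.repr ((x ∘ₗ C H - C H ∘ₗ x) (b i)) i' =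
      (∑ a, X i' a * b.repr (C H (b i)) a) - ∑ a, b.repr (C H (b a)) i' * X a i := by
    rw [LinearMap.sub_apply, LinearMap.comp_apply, LinearMap.comp_apply, map_sub,
      Finsupp.sub_apply, hl, hr]
  rw [hR]
  simp only [hc]
  rw [← Pool.Agent.Helper38.VH.core s X hsX (fun u w => B.repr (H (B w)) u) i i']
  refine Finset.sum_congr rfl fun v _ => ?_
  congr 1
  rw [LinearMap.sub_apply, LinearMap.comp_apply, LinearMap.comp_apply, map_sub, Finsupp.sub_apply,
    hEr, hEB]
  congr 1
  simp only [map_sum, map_smul, Finsupp.coe_finsetSum, Finset.sum_apply, Finsupp.smul_apply,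
    smul_eq_mul]

/-- EQV -/
theorem eqv {M : 𝒜} {ι : Type} [Fintype ι] [DecidableEq ι] (b : Module.Basis ι K (F.V M))
    (δ : ι → ℚ) (hδ : ∀ i, δ i = 1 ∨ δ i = -1) (hb : ∀ i, F.par M (b i) = (δ i : K) • b i) (n : ℕ)
    (B : Module.Basis (Fin (n + 1) → ι) K (F.V (T M (n + 1))))
    (hB : ∀ w, B w = wd F (n + 1) fun j => b (w j))
    (C : (F.V (T M (n + 1)) →ₗ[K] F.V (T M (n + 1))) →ₗ[K] (F.V M →ₗ[K] F.V M))
    (hC : ∀ (H : F.V (T M (n + 1)) →ₗ[K] F.V (T M (n + 1))) (i : ι),
        C H (b i) = ∑ i', (∑ w with w (Fin.last n) = i,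
          ((∏ k : Fin n, δ (w k.castSucc) : ℚ) : K) *
            B.repr (H (B w)) (Function.update w (Fin.last n) i')) • b i')
    (x : F.V M →ₗ[K] F.V M) (hx : Ev F x) (E : F.V (T M (n + 1)) →ₗ[K] F.V (T M (n + 1)))
    (hE : IsDer F x (n + 1) E) (H : F.V (T M (n + 1)) →ₗ[K] F.V (T M (n + 1))) :
    C (E ∘ₗ H - H ∘ₗ E) = x ∘ₗ C H - C H ∘ₗ x :=
  EQVX.eqv' b δ hb n B hB C hC x hx E hE H

end Pool.Agent.Helper96.VH
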