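import Pool.Agent.Helper96.VH.Defs
import Pool.Agent.Helper96.SP.RKLA

/-!
# Package FIN (helper47): an even operator from its contraction
-/

open CategoryTheory MonoidalCategory Limits BraidedCategory

universe u v w

namespace Pool.Agent.Helper96.VH

open Pool.Agent.TH90.AB Pool.Agent.TH90.Kim Pool.Agent.Helper96.Kim Pool.Agent.Helper96.SP

set_option linter.unusedSectionVars false

variable {𝒜 : Type u} [Category.{v} 𝒜] [MonoidalCategory 𝒜] [SymmetricCategory 𝒜]
  [Preadditive 𝒜] [MonoidalPreadditive 𝒜] [Linear ℚ 𝒜] [MonoidalLinear ℚ 𝒜]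
  [hdual : ∀ X : 𝒜, HasRightDual X] {K : Type w} [Field K] [CharZero K] {F : Realisation 𝒜 K}

namespace FINX

/-- the projection to a parity class -/
theorem proj {M : 𝒜} {d : ℕ} (b : Module.Basis (Fin d) K (F.V M)) (δ : Fin d → ℚ)
    (hδ : ∀ i, δ i = 1 ∨ δ i = -1) (U : F.V M →ₗ[K] F.V M) (hU : U ∈ AlgOp F M) (f : Fin d → ℚ)
    (hf : ∀ i, 0 < f i) (hUb : ∀ i, U (b i) = ((δ i * f i : ℚ) : K) • b i) (ε : ℚ) :
    ∃ p ∈ AlgOp F M, ∀ i, p (b i) = (if δ i = ε then (1 : K) else 0) • b i := by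
  classical
  let μ : Fin d → K := fun i => ((δ i * f i : ℚ) : K)
  have hne : ∀ i j, μ i = μ j → δ i = δ j := by
    intro i j h
    have h1 : δ i * f i = δ j * f j := Rat.cast_injective (α := K) h
    have h2 := hf i
    have h3 := hf j
    rcases hδ i with h4 | h4 <;> rcases hδ j with h5 | h5 <;> rw [h4, h5] at h1 ⊢ <;> linarith
  let r : K → K := fun t => if ∃ j, μ j = t ∧ δ j = ε then 1 else 0
  let P : Polynomial K := Lagrange.interpolate (Finset.univ.image μ) id r
  have hP : ∀ i, P.eval (μ i) = if δ i = ε then 1 else 0 := by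
    intro i
    have h1 : P.eval (id (μ i)) = r (μ i) :=
      Lagrange.eval_interpolate_at_node r (Set.injOn_id _)
        (Finset.mem_image_of_mem μ (Finset.mem_univ i))
    simp only [id] at h1
    rw [h1]
    by_cases h : δ i = ε
    · rw [if_pos h]
      exact if_pos ⟨i, rfl, h⟩
    · rw [if_neg h]
      refine if_neg ?_
      rintro ⟨j, hj1, hj2⟩
      exact h ((hne j i hj1).symm.trans hj2)
  let U' : Module.End K (F.V M) := U
  refine ⟨Polynomial.aeval U' P, alg_aeval hU P, fun i => ?_⟩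
  have he : Module.End.HasEigenvector U' (μ i) (b i) :=
    ⟨Module.End.mem_eigenspace_iff.2 (hUb i), b.ne_zero i⟩
  have := Module.End.aeval_apply_of_hasEigenvector (p := P) he
  rw [hP i] at this
  exact this

/-- coordinates of the parity -/
theorem repr_par {M : 𝒜} {d : ℕ} (b : Module.Basis (Fin d) K (F.V M)) (δ : Fin d → ℚ)
    (hb : ∀ i, F.par M (b i) = (δ i : K) • b i) (z : F.V M) (j : Fin d) :
    b.repr (F.par M z) j = (δ j : K) * b.repr z j := by
  have h1 : (b.coord j) ∘ₗ F.par M = (δ j : K) • b.coord j := by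
    refine b.ext fun i => ?_
    rw [LinearMap.comp_apply, hb, _root_.map_smul, LinearMap.smul_apply, Module.Basis.coord_apply,
      Module.Basis.repr_self]
    by_cases h : i = j
    · rw [h]
    · rw [Finsupp.single_eq_of_ne (Ne.symm h), smul_zero, smul_zero]
  exact LinearMap.congr_fun h1 z

/-- an even operator on a class with one letter -/
theorem one_letter {M : 𝒜} {d : ℕ} (b : Module.Basis (Fin d) K (F.V M)) (δ : Fin d → ℚ)
    (hb : ∀ i, F.par M (b i) = (δ i : K) • b i)
    (y : F.V M →ₗ[K] F.V M) (hy : Ev F y) (i : Fin d) (h : ∀ j, δ j = δ i → j = i) :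
    y (b i) = b.repr (y (b i)) i • b i := by
  have h1 : ∀ j, j ≠ i → b.repr (y (b i)) j = 0 := by
    intro j hj
    have h2 := repr_par b δ hb (y (b i)) j
    rw [hy, hb, _root_.map_smul, _root_.map_smul, Finsupp.smul_apply, smul_eq_mul] at h2
    have h3 : ((δ i : K) - (δ j : K)) * b.repr (y (b i)) j = 0 := by
      rw [sub_mul, h2, sub_self]
    rcases mul_eq_zero.1 h3 with h4 | h4
    · exfalso
      rw [sub_eq_zero] at h4
      have h5 : δ i = δ j := by exact_mod_cast h4
      exact hj (h j h5.symm)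
    · exact h4
  conv_lhs => rw [← b.sum_repr (y (b i))]
  rw [Finset.sum_eq_single i]
  · intro j _ hj
    rw [h1 j hj, zero_smul]
  · intro h2
    exact absurd (Finset.mem_univ i) h2

end FINX

open FINX in
theorem fin {M : 𝒜} {d : ℕ} (b : Module.Basis (Fin d) K (F.V M)) (δ : Fin d → ℚ)
    (hδ : ∀ i, δ i = 1 ∨ δ i = -1) (hb : ∀ i, F.par M (b i) = (δ i : K) • b i)
    (U : F.V M →ₗ[K] F.V M) (hU : U ∈ AlgOp F M) (f : Fin d → ℚ) (hf : ∀ i, 0 < f i)
    (hUb : ∀ i, U (b i) = ((δ i * f i : ℚ) : K) • b i)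
    (y : F.V M →ₗ[K] F.V M) (hy : Ev F y) (W : F.V M →ₗ[K] F.V M) (hW : W ∈ AlgOp F M)
    (α : ℚ → ℚ) (c : ℚ → K) (hα : ∀ i j, i ≠ j → δ i = δ j → α (δ i) ≠ 0)
    (h : ∀ i, W (b i) = ((δ i * α (δ i) : ℚ) : K) • y (b i) + c (δ i) • b i) :
    y ∈ AlgOp F M := by
  classical
  have key : ∀ ε : ℚ, (ε = 1 ∨ ε = -1) → ∃ z ∈ AlgOp F M, ∀ i,
      z (b i) = (if δ i = ε then (1 : K) else 0) • y (b i) := by
    intro ε hε
    obtain ⟨p, hp, hpb⟩ := proj b δ hδ U hU f hf hUb ε
    have hε0 : ε ≠ 0 := by rcases hε with h1 | h1 <;> rw [h1] <;> norm_num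
    by_cases hα0 : α ε = 0
    · by_cases hex : ∃ i, δ i = ε
      · obtain ⟨i, hi⟩ := hex
        have huniq : ∀ j, δ j = δ i → j = i := by
          intro j hj
          by_contra hne
          apply hα j i hne hj
          rw [hj, hi, hα0]
        refine ⟨b.repr (y (b i)) i • p, Submodule.smul_mem _ _ hp, fun j => ?_⟩
        rw [LinearMap.smul_apply, hpb]
        by_cases hj : δ j = ε
        · have hji : j = i := huniq j (hj.trans hi.symm)
          rw [hji, if_pos hi, one_smul, one_smul]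
          exact (one_letter b δ hb y hy i huniq).symm
        · rw [if_neg hj, zero_smul, zero_smul, smul_zero]
      · refine ⟨0, Submodule.zero_mem _, fun j => ?_⟩
        rw [if_neg fun h1 => hex ⟨j, h1⟩, zero_smul, LinearMap.zero_apply]
    · refine ⟨(((ε * α ε : ℚ) : K))⁻¹ • (W ∘ₗ p - c ε • p), Submodule.smul_mem _ _
        (Submodule.sub_mem _ (alg_comp hW hp) (Submodule.smul_mem _ _ hp)), fun j => ?_⟩
      rw [LinearMap.smul_apply, LinearMap.sub_apply, LinearMap.comp_apply, LinearMap.smul_apply,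
        hpb]
      by_cases hj : δ j = ε
      · rw [if_pos hj, one_smul, one_smul, h, hj, add_sub_cancel_right, smul_smul, inv_mul_cancel₀,
          one_smul]
        have h1 : ε * α ε ≠ 0 := mul_ne_zero hε0 hα0
        exact_mod_cast h1
      · rw [if_neg hj, zero_smul, zero_smul, _root_.map_zero, smul_zero, sub_zero, smul_zero]
  obtain ⟨z1, hz1, h1⟩ := key 1 (Or.inl rfl)
  obtain ⟨z2, hz2, h2⟩ := key (-1) (Or.inr rfl)
  have e : y = z1 + z2 := by
    refine b.ext fun i => ?_
    rw [LinearMap.add_apply, h1, h2]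
    rcases hδ i with h3 | h3
    · rw [h3, if_pos rfl, if_neg (by norm_num), one_smul, zero_smul, add_zero]
    · rw [h3, if_neg (by norm_num), if_pos rfl, one_smul, zero_smul, zero_add]
  rw [e]
  exact Submodule.add_mem _ hz1 hz2

end Pool.Agent.Helper96.VH
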