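import Pool.Agent.Helper96.VH.Defs

/-!
# The second moments of the contents
-/

namespace Pool.Agent.Helper96.VH

open Pool.Agent.Helper96.SP

/-- The exchange of two letters exchanges the counts. -/
theorem cnt_swap_comp {ι : Type} [Fintype ι] [DecidableEq ι] {n : ℕ} (i j a : ι)
    (w : Fin n → ι) : cnt (fun k => Equiv.swap i j (w k)) a = cnt w (Equiv.swap i j a) := by
  unfold cnt
  congr 1
  ext k
  simp only [Finset.mem_filter, Finset.mem_univ, true_and]
  constructor
  · intro h
    rw [← h, Equiv.swap_apply_self]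
  · intro h
    rw [h, Equiv.swap_apply_self]

theorem mom_pos {ι : Type} [Fintype ι] [DecidableEq ι] {n : ℕ} (q : (Fin n → ι) → ℚ)
    (hq : ∀ w, 0 ≤ q w) (i j : ι) (hsym : ∀ w, q (fun k => Equiv.swap i j (w k)) = q w)
    (hex : ∃ w, q w ≠ 0 ∧ cnt w i ≠ cnt w j) : mom q i j < mom q i i := by
  -- the reindexing
  have h1 : mom q i i = mom q j j := by
    unfold mom
    have e : ∑ w, q w * (cnt w i : ℚ) * (cnt w i : ℚ) =
        ∑ w : Fin n → ι, q (fun k => Equiv.swap i j (w k)) *
          (cnt (fun k => Equiv.swap i j (w k)) i : ℚ) *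
          (cnt (fun k => Equiv.swap i j (w k)) i : ℚ) := by
      exact (Equiv.sum_comp (Equiv.arrowCongr (Equiv.refl (Fin n)) (Equiv.swap i j))
        (fun w => q w * (cnt w i : ℚ) * (cnt w i : ℚ))).symm
    rw [e]
    apply Finset.sum_congr rfl
    intro w _
    rw [hsym, cnt_swap_comp, Equiv.swap_apply_left]
  have h2 : 2 * (mom q i i - mom q i j) =
      ∑ w, q w * ((cnt w i : ℚ) - (cnt w j : ℚ)) ^ 2 := by
    have : 2 * (mom q i i - mom q i j) = mom q i i + mom q j j - 2 * mom q i j := by
      rw [← h1]; ring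
    rw [this]
    unfold mom
    rw [← Finset.sum_add_distrib, Finset.mul_sum, ← Finset.sum_sub_distrib]
    apply Finset.sum_congr rfl
    intro w _
    ring
  have h3 : 0 < ∑ w, q w * ((cnt w i : ℚ) - (cnt w j : ℚ)) ^ 2 := by
    obtain ⟨w, hw, hc⟩ := hex
    apply Finset.sum_pos'
    · intro w _
      exact mul_nonneg (hq w) (sq_nonneg _)
    · refine ⟨w, Finset.mem_univ _, mul_pos (lt_of_le_of_ne (hq w) (Ne.symm hw)) ?_⟩
      have hne : (cnt w i : ℚ) - (cnt w j : ℚ) ≠ 0 := by
        intro h0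
        exact hc (by exact_mod_cast sub_eq_zero.mp h0)
      positivity
  linarith

theorem exists_unbalanced {ι : Type} [Fintype ι] [DecidableEq ι] {n : ℕ}
    (q : (Fin n → ι) → ℚ) (hne : ∃ w, q w ≠ 0)
    (hsym : ∀ i j, ∀ w, q (fun k => Equiv.swap i j (w k)) = q w)
    (hd : ¬ Fintype.card ι ∣ n) (i j : ι) (hij : i ≠ j) : ∃ w, q w ≠ 0 ∧ cnt w i ≠ cnt w j := by
  by_contra hcon
  push Not at hcon
  obtain ⟨w, hw⟩ := hne
  -- all the counts of `w` are equal
  have hall : ∀ a b, cnt w a = cnt w b := by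
    -- first `cnt w i = cnt w b` for every `b`, by the exchange of `j` and `b`
    have key : ∀ v : Fin n → ι, q v ≠ 0 → ∀ b, cnt v i = cnt v b := by
      intro v hv b
      by_cases hb : b = i
      · rw [hb]
      · have h1 : q (fun k => Equiv.swap j b (v k)) ≠ 0 := by rw [hsym]; exact hv
        have h2 := hcon _ h1
        rw [cnt_swap_comp, cnt_swap_comp, Equiv.swap_apply_left,
          Equiv.swap_apply_of_ne_of_ne hij (Ne.symm hb)] at h2
        exact h2
    intro a b
    rw [← key w hw a, ← key w hw b]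
  apply hd
  have hsum : n = ∑ a : ι, cnt w a := by
    have := Finset.card_eq_sum_card_fiberwise (f := w) (s := Finset.univ) (t := Finset.univ)
      (fun x _ => Finset.mem_univ _)
    simpa [cnt] using this
  refine ⟨cnt w i, ?_⟩
  conv_lhs => rw [hsum]
  rw [Finset.sum_congr rfl (fun a _ => hall a i), Finset.sum_const, Finset.card_univ,
    smul_eq_mul]

end Pool.Agent.Helper96.VH
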