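import Pool.Agent.Helper96.SP.RUDIAG
import Pool.Agent.Helper96.VH.Defs

/-!
# Package PDIAG: the contraction of the derivation of a diagonal operator
-/

open CategoryTheory MonoidalCategory Limits BraidedCategory

universe u v w

namespace Pool.Agent.Helper96.VH

open Pool.Agent.TH90.AB Pool.Agent.TH90.Kim Pool.Agent.Helper96.Kim Pool.Agent.Helper96.SP

set_option linter.unusedSectionVars false
set_option linter.unusedVariables false

theorem pdiag {𝒜 : Type u} [Category.{v} 𝒜] [MonoidalCategory 𝒜] [SymmetricCategory 𝒜]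
    [Preadditive 𝒜] [MonoidalPreadditive 𝒜] [Linear ℚ 𝒜] [MonoidalLinear ℚ 𝒜]
    [hdual : ∀ X : 𝒜, HasRightDual X] {K : Type w} [Field K] [CharZero K] {F : Realisation 𝒜 K}
    {M : 𝒜} {φ : Fam M} (hφ : PA φ) {ι : Type} [Fintype ι] [DecidableEq ι]
    (b : Module.Basis ι K (F.V M))
    (δ : ι → ℚ) (hδ : ∀ i, δ i = 1 ∨ δ i = -1) (hb : ∀ i, F.par M (b i) = (δ i : K) • b i) (n : ℕ)
    (B : Module.Basis (Fin (n + 1) → ι) K (F.V (T M (n + 1))))
    (hB : ∀ w, B w = wd F (n + 1) fun j => b (w j))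
    (C : (F.V (T M (n + 1)) →ₗ[K] F.V (T M (n + 1))) →ₗ[K] (F.V M →ₗ[K] F.V M))
    (hC : ∀ (H : F.V (T M (n + 1)) →ₗ[K] F.V (T M (n + 1))) (i : ι),
        C H (b i) = ∑ i', (∑ w with w (Fin.last n) = i,
          ((∏ k : Fin n, δ (w k.castSucc) : ℚ) : K) *
            B.repr (H (B w)) (Function.update w (Fin.last n) i')) • b i')
    (e : QS (n + 1)) (q : (Fin (n + 1) → ι) → ℚ)
    (hq : ∀ (h : Equiv.Perm (Fin (n + 1))) (w : Fin (n + 1) → ι),
        B.repr (F.map (rh φ (n + 1) (MonoidAlgebra.single h 1 * (adj e * e) *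
          MonoidAlgebra.single h⁻¹ 1)) (B w)) w = (q (w ∘ h) : K)) (a : ι)
    (y : F.V M →ₗ[K] F.V M) (hy : ∀ i, y (b i) = (if i = a then (1 : K) else 0) • b i)
    (E : F.V (T M (n + 1)) →ₗ[K] F.V (T M (n + 1))) (hE : IsDer F y (n + 1) E) (i : ι) :
    C (F.par (T M (n + 1)) ∘ₗ E ∘ₗ F.map (rh φ (n + 1) (zc e))) (b i) =
      ((δ i * (n.factorial * mom q a i) : ℚ) : K) • b i := by
  classical
  -- the action on words
  have hEB : ∀ w : Fin (n + 1) → ι, E (B w) = ((cnt w a : ℚ) : K) • B w := by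
    intro w
    have h1 : ∀ j : Fin (n + 1), wd F (n + 1)
        (Function.update (fun j => b (w j)) j (y (b (w j)))) =
        (if w j = a then (1 : K) else 0) • B w := by
      intro j
      rw [hy]
      split_ifs with h
      · rw [one_smul, one_smul, Function.update_eq_self, hB]
      · rw [zero_smul, zero_smul, ← WD.wdM_apply]
        exact (WD.wdM F M (n + 1)).map_update_zero (fun j => b (w j)) j
    rw [hB, hE]
    rw [Finset.sum_congr rfl fun j _ => h1 j, ← Finset.sum_smul, UDX.cnt_eq_sum, hB]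
    congr 1
    rw [Rat.cast_sum]
    refine Finset.sum_congr rfl fun k _ => ?_
    split_ifs <;> simp
  have hpB : ∀ w : Fin (n + 1) → ι, F.par (T M (n + 1)) (B w) =
      ((∏ k, δ (w k) : ℚ) : K) • B w := by
    intro w
    rw [hB]
    exact wd_par F b δ hb (n + 1) w
  -- an operator that is a scalar on the words of one content
  have hsc : ∀ (A : F.V (T M (n + 1)) →ₗ[K] F.V (T M (n + 1))) (s : (Fin (n + 1) → ι) → K)
      (hA : ∀ w, A (B w) = s w • B w) (w : Fin (n + 1) → ι) (z : F.V (T M (n + 1)))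
      (hz : ∀ w', (∃ l, cnt w l ≠ cnt w' l) → B.repr z w' = 0)
      (hs : ∀ w', (∀ l, cnt w l = cnt w' l) → s w' = s w), A z = s w • z := by
    intro A s hA w z hz hs
    conv_lhs => rw [← B.sum_repr z]
    conv_rhs => rw [← B.sum_repr z]
    rw [map_sum, Finset.smul_sum]
    refine Finset.sum_congr rfl fun w' _ => ?_
    rw [_root_.map_smul, hA]
    by_cases h : ∃ l, cnt w l ≠ cnt w' l
    · rw [hz w' h, zero_smul, zero_smul, smul_zero]
    · rw [not_exists] at h
      rw [hs w' fun l => not_not.1 (h l), smul_comm]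
  have hprod : ∀ w w' : Fin (n + 1) → ι, (∀ l, cnt w l = cnt w' l) →
      ∏ k, δ (w' k) = ∏ k, δ (w k) := by
    intro w w' h
    have h1 : ∀ w : Fin (n + 1) → ι, ∏ k, δ (w k) = ∏ l, δ l ^ cnt w l := by
      intro w
      rw [← Finset.prod_fiberwise_of_maps_to (s := Finset.univ) (t := Finset.univ) (g := w)
        (fun k _ => Finset.mem_univ _)]
      refine Finset.prod_congr rfl fun l _ => ?_
      rw [Finset.prod_congr rfl (g := fun _ => δ l) fun k hk => by
        rw [(Finset.mem_filter.1 hk).2], Finset.prod_const]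
      rfl
    rw [h1, h1]
    exact Finset.prod_congr rfl fun l _ => by rw [h l]
  set H : F.V (T M (n + 1)) →ₗ[K] F.V (T M (n + 1)) :=
    F.par (T M (n + 1)) ∘ₗ E ∘ₗ F.map (rh φ (n + 1) (zc e)) with hH
  have hHw : ∀ w, H (B w) = (((∏ k, δ (w k)) * cnt w a : ℚ) : K) •
      ∑ h : Equiv.Perm (Fin (n + 1)), F.map (rh φ (n + 1) (MonoidAlgebra.single h 1 *
        (adj e * e) * MonoidAlgebra.single h⁻¹ 1)) (B w) := by
    intro w
    have h1 : F.map (rh φ (n + 1) (zc e)) (B w) =
        ∑ h : Equiv.Perm (Fin (n + 1)), F.map (rh φ (n + 1) (MonoidAlgebra.single h 1 *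
        (adj e * e) * MonoidAlgebra.single h⁻¹ 1)) (B w) := by
      unfold zc
      have h2 : rh φ (n + 1) (∑ h : Equiv.Perm (Fin (n + 1)), MonoidAlgebra.single h 1 *
        (adj e * e) * MonoidAlgebra.single h⁻¹ 1) = ∑ h : Equiv.Perm (Fin (n + 1)),
          rh φ (n + 1) (MonoidAlgebra.single h 1 *
        (adj e * e) * MonoidAlgebra.single h⁻¹ 1) := map_sum (rho φ (n + 1)) _ _
      rw [h2, WD.map_sum']
    rw [← h1]
    have h3 : ∀ w', (∃ l, cnt w l ≠ cnt w' l) →
        B.repr (F.map (rh φ (n + 1) (zc e)) (B w)) w' = 0 := fun w' h =>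
      UDX.content hφ b δ hδ hb (n + 1) B hB _ w w' h
    have h4 : E (F.map (rh φ (n + 1) (zc e)) (B w)) =
        ((cnt w a : ℚ) : K) • F.map (rh φ (n + 1) (zc e)) (B w) :=
      hsc E (fun w => ((cnt w a : ℚ) : K)) hEB w _ h3 fun w' h => by rw [h a]
    have h5 : F.par (T M (n + 1)) (F.map (rh φ (n + 1) (zc e)) (B w)) =
        ((∏ k, δ (w k) : ℚ) : K) • F.map (rh φ (n + 1) (zc e)) (B w) :=
      hsc (F.par (T M (n + 1))) (fun w => ((∏ k, δ (w k) : ℚ) : K)) hpB w _ h3
        fun w' h => by rw [hprod w w' h]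
    show F.par (T M (n + 1)) (E (F.map (rh φ (n + 1) (zc e)) (B w))) = _
    rw [h4, _root_.map_smul, h5, smul_smul, ← Rat.cast_mul, mul_comm]
  have hcnt : ∀ (w : Fin (n + 1) → ι) (a' : ι), w (Fin.last n) = i → a' ≠ i →
      ∃ l, cnt w l ≠ cnt (Function.update w (Fin.last n) a') l := by
    intro w a' hw ha'
    refine ⟨i, ?_⟩
    intro h1
    have h2 : (cnt w i : ℚ) = cnt (Function.update w (Fin.last n) a') i := by rw [h1]
    rw [UDX.cnt_eq_sum, UDX.cnt_eq_sum, Fin.sum_univ_castSucc, Fin.sum_univ_castSucc, hw,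
      if_pos rfl, Function.update_self, if_neg ha'] at h2
    have h3 : ∀ k : Fin n, Function.update w (Fin.last n) a' k.castSucc = w k.castSucc :=
      fun k => Function.update_of_ne (Fin.castSucc_lt_last k).ne _ _
    simp only [h3] at h2
    linarith
  rw [hC, Finset.sum_eq_single i]
  · congr 1
    have h1 : ∀ w : Fin (n + 1) → ι, w (Fin.last n) = i →
        ((∏ k : Fin n, δ (w k.castSucc) : ℚ) : K) *
          B.repr (H (B w)) (Function.update w (Fin.last n) i) =
        ((δ i * (cnt w a * ∑ h : Equiv.Perm (Fin (n + 1)), q (w ∘ h)) : ℚ) : K) := by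
      intro w hw
      have h2 : Function.update w (Fin.last n) i = w := by
        rw [← hw]
        exact Function.update_eq_self _ _
      rw [h2, hHw, _root_.map_smul, map_sum, Finsupp.smul_apply, Finsupp.coe_finsetSum,
        Finset.sum_apply, Finset.sum_congr rfl fun h _ => hq h w, smul_eq_mul, ← Rat.cast_sum,
        ← Rat.cast_mul, ← Rat.cast_mul]
      congr 1
      have h3 : ∏ k, δ (w k) = (∏ k : Fin n, δ (w k.castSucc)) * δ i := by
        rw [Fin.prod_univ_castSucc, hw]
      have h4 : (∏ k : Fin n, δ (w k.castSucc)) * (∏ k : Fin n, δ (w k.castSucc)) = 1 := by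
        rw [← Finset.prod_mul_distrib]
        refine Finset.prod_eq_one fun k _ => ?_
        rcases hδ (w k.castSucc) with h | h <;> rw [h] <;> norm_num
      rw [h3]
      linear_combination (δ i * cnt w a *
        ∑ h : Equiv.Perm (Fin (n + 1)), q (w ∘ h)) * h4
    rw [Finset.sum_congr rfl fun w hw => h1 w (Finset.mem_filter.1 hw).2, ← Rat.cast_sum,
      ← Finset.mul_sum]
    congr 2
    rw [Finset.sum_filter]
    have h2 : ∀ w : Fin (n + 1) → ι, (if w (Fin.last n) = i then
        (cnt w a : ℚ) * ∑ h : Equiv.Perm (Fin (n + 1)), q (w ∘ h) else 0) =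
        ∑ h : Equiv.Perm (Fin (n + 1)), if w (Fin.last n) = i then
          (cnt w a : ℚ) * q (w ∘ h) else 0 := by
      intro w
      split_ifs
      · rw [Finset.mul_sum]
      · rw [Finset.sum_const_zero]
    rw [Finset.sum_congr rfl fun w _ => h2 w, Finset.sum_comm]
    have h3 : ∀ h : Equiv.Perm (Fin (n + 1)), ∑ w : Fin (n + 1) → ι,
        (if w (Fin.last n) = i then (cnt w a : ℚ) * q (w ∘ h) else 0) =
        ∑ w : Fin (n + 1) → ι, if w (h⁻¹ (Fin.last n)) = i then
          (cnt w a : ℚ) * q w else 0 := by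
      intro h
      refine (Equiv.sum_comp (Equiv.arrowCongr h (Equiv.refl ι))
        (fun w => if w (Fin.last n) = i then (cnt w a : ℚ) * q (w ∘ h) else 0)).symm.trans ?_
      refine Finset.sum_congr rfl fun w _ => ?_
      have h4 : (Equiv.arrowCongr h (Equiv.refl ι)) w =
          fun k => w ((h⁻¹ : Equiv.Perm (Fin (n + 1))) k) := rfl
      have h5 : (cnt (fun k => w ((h⁻¹ : Equiv.Perm (Fin (n + 1))) k)) a : ℚ) = cnt w a := by
        rw [UDX.cnt_eq_sum, UDX.cnt_eq_sum]
        exact Equiv.sum_comp (h⁻¹ : Equiv.Perm (Fin (n + 1)))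
          fun k => if w k = a then (1 : ℚ) else 0
      have h6 : (fun k => w ((h⁻¹ : Equiv.Perm (Fin (n + 1))) k)) ∘ h = w := by
        funext k
        simp
      rw [h4, h5, h6]
    rw [Finset.sum_congr rfl fun h _ => h3 h, Finset.sum_comm]
    unfold mom
    rw [Finset.mul_sum]
    refine Finset.sum_congr rfl fun w _ => ?_
    refine (Equiv.sum_comp (Equiv.inv (Equiv.Perm (Fin (n + 1))))
      (fun h : Equiv.Perm (Fin (n + 1)) => if w (h (Fin.last n)) = i then
        (cnt w a : ℚ) * q w else 0)).trans ?_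
    rw [UDX.sum_perm (fun k => if w k = i then (cnt w a : ℚ) * q w else 0) (Fin.last n),
      UDX.cnt_eq_sum w i]
    congr 1
    rw [Finset.mul_sum]
    refine Finset.sum_congr rfl fun k _ => ?_
    split_ifs <;> ring
  · intro a' _ ha'
    rw [Finset.sum_eq_zero, zero_smul]
    intro w hw
    have hw' : w (Fin.last n) = i := (Finset.mem_filter.1 hw).2
    rw [hHw, _root_.map_smul, map_sum, Finsupp.smul_apply, Finsupp.coe_finsetSum,
      Finset.sum_apply, Finset.sum_eq_zero, smul_zero, mul_zero]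
    intro h _
    exact UDX.content hφ b δ hδ hb (n + 1) B hB _ w _ (hcnt w a' hw' ha')
  · intro h
    exact absurd (Finset.mem_univ _) h

end Pool.Agent.Helper96.VH
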