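import Pool.Agent.Helper96.VH.PSIof
import Pool.Agent.Helper96.VH.DER
import Pool.Agent.Helper96.VH.PDIAG
import Pool.Agent.Helper96.VH.EQV

/-!
# Package PSI: the operator which a derivation induces
-/

open CategoryTheory MonoidalCategory Limits BraidedCategory

universe u v w

namespace Pool.Agent.Helper96.VH

open Pool.Agent.TH90.AB Pool.Agent.TH90.Kim Pool.Agent.Helper96.Kim Pool.Agent.Helper96.SP

set_option linter.unusedSectionVars false

variable {𝒜 : Type u} [Category.{v} 𝒜] [MonoidalCategory 𝒜] [SymmetricCategory 𝒜]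
  [Preadditive 𝒜] [MonoidalPreadditive 𝒜] [Linear ℚ 𝒜] [MonoidalLinear ℚ 𝒜]
  [hdual : ∀ X : 𝒜, HasRightDual X] {K : Type w} [Field K] [CharZero K] {F : Realisation 𝒜 K}

theorem psi {M : 𝒜} {φ : Fam M} (hφ : PA φ) {ι : Type} [Fintype ι] [DecidableEq ι]
    (b : Module.Basis ι K (F.V M))
    (δ : ι → ℚ) (hδ : ∀ i, δ i = 1 ∨ δ i = -1) (hb : ∀ i, F.par M (b i) = (δ i : K) • b i) (n : ℕ)
    (B : Module.Basis (Fin (n + 1) → ι) K (F.V (T M (n + 1))))
    (hB : ∀ w, B w = wd F (n + 1) fun j => b (w j))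
    (C : (F.V (T M (n + 1)) →ₗ[K] F.V (T M (n + 1))) →ₗ[K] (F.V M →ₗ[K] F.V M))
    (hC : ∀ (H : F.V (T M (n + 1)) →ₗ[K] F.V (T M (n + 1))) (i : ι),
        C H (b i) = ∑ i', (∑ w with w (Fin.last n) = i,
          ((∏ k : Fin n, δ (w k.castSucc) : ℚ) : K) *
            B.repr (H (B w)) (Function.update w (Fin.last n) i')) • b i')
    (e : QS (n + 1)) (q : (Fin (n + 1) → ι) → ℚ)
    (hq : ∀ (h : Equiv.Perm (Fin (n + 1))) (w : Fin (n + 1) → ι),
        B.repr (F.map (rh φ (n + 1) (MonoidAlgebra.single h 1 * (adj e * e) *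
          MonoidAlgebra.single h⁻¹ 1)) (B w)) w = (q (w ∘ h) : K))
    (hqs : ∀ i j, δ i = δ j → ∀ w, q (fun k => Equiv.swap i j (w k)) = q w)
    (y : F.V M →ₗ[K] F.V M) (hy : Ev F y)
    (E : F.V (T M (n + 1)) →ₗ[K] F.V (T M (n + 1))) (hE : IsDer F y (n + 1) E) :
    ∃ (α : ℚ → ℚ) (c : ℚ → K), (∀ i j, i ≠ j → δ i = δ j →
        α (δ i) = n.factorial * (mom q i i - mom q i j)) ∧
      ∀ i, C (F.par (T M (n + 1)) ∘ₗ E ∘ₗ F.map (rh φ (n + 1) (zc e))) (b i) =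
        ((δ i * α (δ i) : ℚ) : K) • y (b i) + c (δ i) • b i := by
  refine PSIX.psi_of b δ hb n C (F.map (rh φ (n + 1) (zc e))) q
    (fun x hx E hE H => eqv b δ hδ hb n B hB C hC x hx E hE H)
    (fun a y hy E hE i => pdiag hφ b δ hδ hb n B hB C hC e q hq a y hy E hE i)
    (fun y hy => ?_) (fun y E E' h h' => der_unique y (n + 1) E E' h h') hqs y hy E hE
  obtain ⟨E, h1, h2, h3⟩ := exists_der hφ y hy (n + 1)
  exact ⟨E, h1, fun x => h2 _ x, h3⟩

end Pool.Agent.Helper96.VH
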