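import Pool.Agent.Helper96.VH.DER
import Pool.Agent.Helper96.VH.ALGD
import Pool.Agent.Helper96.VH.MOM
import Pool.Agent.Helper96.VH.FIN
import Pool.Agent.Helper96.VH.PDIAG
import Pool.Agent.Helper96.VH.EQV
import Pool.Agent.Helper96.VH.PSI
import Pool.Agent.Helper96.SP.QPARU
import Pool.Agent.Helper96.SP.RCTR
import Pool.Agent.Helper96.SP.PWD
import Pool.Agent.Helper96.SP.RQW
import Pool.Agent.Helper96.SP.RSEPA
import Pool.Agent.Helper96.SP.RKLA

/-!
# Algebraic operators and Schur powers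
-/

open CategoryTheory MonoidalCategory Limits BraidedCategory

universe u v w

namespace Pool.Agent.Helper96.VH

open Pool.Agent.TH90.AB Pool.Agent.TH90.Kim Pool.Agent.Helper96.Kim Pool.Agent.Helper96.SP

set_option linter.unusedSectionVars false

variable {𝒜 : Type u} [Category.{v} 𝒜] [MonoidalCategory 𝒜] [SymmetricCategory 𝒜]
  [Preadditive 𝒜] [MonoidalPreadditive 𝒜] [Linear ℚ 𝒜] [MonoidalLinear ℚ 𝒜]
  [hdual : ∀ X : 𝒜, HasRightDual X] {K : Type w} [Field K] [CharZero K] {F : Realisation 𝒜 K}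

namespace FULL

lemma map_mem {M N : 𝒜} (i : N ⟶ M) (r : M ⟶ N) {p : F.V N →ₗ[K] F.V N} (hp : p ∈ AlgOp F N) :
    F.map i ∘ₗ p ∘ₗ F.map r ∈ AlgOp F M := by
  unfold AlgOp at hp ⊢
  induction hp using Submodule.span_induction with
  | mem p hp =>
    obtain ⟨f, rfl⟩ := hp
    refine Submodule.subset_span ⟨r ≫ f ≫ i, LinearMap.ext fun x => ?_⟩
    change F.map (r ≫ f ≫ i) x = F.map i (F.map f (F.map r x))
    rw [F.map_comp, F.map_comp]
  | zero =>
    rw [LinearMap.zero_comp, LinearMap.comp_zero]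
    exact Submodule.zero_mem _
  | add p q _ _ h h' =>
    rw [LinearMap.add_comp, LinearMap.comp_add]
    exact Submodule.add_mem _ h h'
  | smul c p _ h =>
    rw [LinearMap.smul_comp, LinearMap.comp_smul]
    exact Submodule.smul_mem _ c h

lemma c_mem {M N : 𝒜} (C : (F.V M →ₗ[K] F.V M) →ₗ[K] (F.V N →ₗ[K] F.V N))
    (hC : ∀ f : M ⟶ M, ∃ f' : N ⟶ N, C (F.map f) = F.map f') {p : F.V M →ₗ[K] F.V M}
    (hp : p ∈ AlgOp F M) : C p ∈ AlgOp F N := by
  unfold AlgOp at hp ⊢
  induction hp using Submodule.span_induction with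
  | mem p hp =>
    obtain ⟨f, rfl⟩ := hp
    obtain ⟨f', hf'⟩ := hC f
    rw [hf']
    exact Submodule.subset_span ⟨f', rfl⟩
  | zero =>
    rw [_root_.map_zero]
    exact Submodule.zero_mem _
  | add p q _ _ h h' =>
    rw [_root_.map_add]
    exact Submodule.add_mem _ h h'
  | smul c p _ h =>
    rw [_root_.map_smul]
    exact Submodule.smul_mem _ c h

lemma rh_mul' {M : 𝒜} (φ : Fam M) (n : ℕ) (x y : QS n) (z : F.V (T M n)) :
    F.map (rh φ n (x * y)) z = F.map (rh φ n x) (F.map (rh φ n y) z) := by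
  have h : rh φ n (x * y) = rh φ n y ≫ rh φ n x := by
    unfold rh
    rw [map_mul]
    rfl
  rw [h, F.map_comp]

lemma rh_sum {M : 𝒜} (φ : Fam M) (n : ℕ) {ι : Type} (s : Finset ι) (x : ι → QS n)
    (z : F.V (T M n)) : F.map (rh φ n (∑ h ∈ s, x h)) z = ∑ h ∈ s, F.map (rh φ n (x h)) z := by
  classical
  induction s using Finset.induction_on with
  | empty =>
    have h : rh φ n (0 : QS n) = 0 := by
      unfold rh
      rw [map_zero]
    rw [Finset.sum_empty, Finset.sum_empty, h, F.map_zero']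
  | insert a s ha ih =>
    have h : rh φ n (x a + ∑ h ∈ s, x h) = rh φ n (x a) + rh φ n (∑ h ∈ s, x h) := by
      unfold rh
      rw [map_add]
    rw [Finset.sum_insert ha, Finset.sum_insert ha, h, F.map_add, ih]

/-- The sum of the conjugates of an algebraic operator of `D` is algebraic. -/
lemma conj_mem {M D : 𝒜} {φ : Fam M} {n : ℕ} {e : QS n} (i : D ⟶ T M n) (r : T M n ⟶ D)
    (hir : i ≫ r = 𝟙 D) (hri : r ≫ i = rh φ n e) (P : F.V (T M n) →ₗ[K] F.V (T M n))
    (hP : ∀ z : QS n, ∀ x, P (F.map (rh φ n z) x) = F.map (rh φ n z) (P x))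
    (hS : F.map r ∘ₗ P ∘ₗ F.map i ∈ AlgOp F D) :
    P ∘ₗ F.map (rh φ n (zc e)) ∈ AlgOp F (T M n) := by
  have hri' : ∀ y, F.map i (F.map r y) = F.map (rh φ n e) y := by
    intro y
    rw [← hri, F.map_comp]
  have hid : ∀ x, F.map r (F.map i x) = x := by
    intro x
    rw [← F.map_comp, hir, F.map_id]
  have key : P ∘ₗ F.map (rh φ n (zc e)) = ∑ h : Equiv.Perm (Fin n),
      F.map (rh φ n (MonoidAlgebra.single h 1 * adj e)) ∘ₗ
        (F.map i ∘ₗ (F.map r ∘ₗ P ∘ₗ F.map i) ∘ₗ F.map r) ∘ₗ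
          F.map (rh φ n (MonoidAlgebra.single h⁻¹ 1)) := by
    refine LinearMap.ext fun x => ?_
    rw [LinearMap.sum_apply]
    change P (F.map (rh φ n (zc e)) x) = ∑ h : Equiv.Perm (Fin n),
      F.map (rh φ n (MonoidAlgebra.single h 1 * adj e)) (F.map i (F.map r (P (F.map i (F.map r
        (F.map (rh φ n (MonoidAlgebra.single h⁻¹ 1)) x))))))
    unfold zc
    rw [rh_sum, map_sum]
    refine Finset.sum_congr rfl fun h _ => ?_
    have h1 : ∀ y, F.map i (F.map r (P (F.map i (F.map r y)))) = F.map (rh φ n e) (P y) := by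
      intro y
      have h2 : P (F.map i (F.map r y)) = F.map (rh φ n e) (P y) := by rw [hri', hP]
      rw [h2, ← hri' (P y), hid]
    rw [h1, hP, rh_mul', rh_mul', rh_mul', rh_mul', hP]
  rw [key]
  refine Submodule.sum_mem _ fun h _ => ?_
  refine alg_comp (Submodule.subset_span ⟨_, rfl⟩) (alg_comp (map_mem i r hS)
    (Submodule.subset_span ⟨_, rfl⟩))

end FULL

open FULL in
/-- An even operator is algebraic if the operator which it induces on a Schur power is. -/
theorem full {M D : 𝒜} {φ : Fam M} (hφ : PA φ) {n : ℕ} {e : QS (n + 1)} (i : D ⟶ T M (n + 1))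
    (r : T M (n + 1) ⟶ D) (hir : i ≫ r = 𝟙 D) (hri : r ≫ i = rh φ (n + 1) e)
    (hD : ∃ x : F.V D, x ≠ 0) (hσ : F.par D ∈ AlgOp F D)
    (hc : ((∃ x : F.V M, x ≠ 0 ∧ F.par M x = x) ∧ ∃ x : F.V M, x ≠ 0 ∧ F.par M x = -x) ∨
      ¬ Module.finrank K (F.V M) ∣ n + 1)
    (y : F.V M →ₗ[K] F.V M) (hy : Ev F y) (E : F.V (T M (n + 1)) →ₗ[K] F.V (T M (n + 1)))
    (hE : IsDer F y (n + 1) E) (hS : F.map r ∘ₗ E ∘ₗ F.map i ∈ AlgOp F D) : y ∈ AlgOp F M := by
  classical
  have hri' : ∀ y, F.map i (F.map r y) = F.map (rh φ (n + 1) e) y := by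
    intro y
    rw [← hri, F.map_comp]
  have hid : ∀ x, F.map r (F.map i x) = x := by
    intro x
    rw [← F.map_comp, hir, F.map_id]
  have hne : ¬ F.Inv (rh φ (n + 1) e) := by
    intro h
    obtain ⟨x, hx⟩ := hD
    apply hx
    have h1 := hri' (F.map i x)
    rw [hid, h] at h1
    rw [← hid x, h1, _root_.map_zero]
  obtain ⟨d, b, δ, hδ, hb⟩ := PARUX.exists_basis F M
  obtain ⟨B, hB⟩ := wd_basis F b (n + 1)
  obtain ⟨C, hCm, hC⟩ := ctr b δ hδ hb n B hB
  obtain ⟨q, hq0, hqz, hqc, hqs⟩ := qw hφ b δ hδ hb (n + 1) B hB e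
  have hqw : ∀ w : Fin (n + 1) → Fin d,
      F.map (rh φ (n + 1) e) (wd F (n + 1) fun k => b (w k)) ≠ 0 → q w ≠ 0 := by
    intro w hw h
    apply hw
    rw [← hB]
    exact (hqz w).1 h
  -- the operator of `y`
  obtain ⟨E', hE', hEz, hEp⟩ := exists_der hφ y hy (n + 1)
  have hEE : E = E' := der_unique y (n + 1) E E' hE hE'
  subst hEE
  have hparz : ∀ z : QS (n + 1), ∀ x, F.par _ (F.map (rh φ (n + 1) z) x) =
      F.map (rh φ (n + 1) z) (F.par _ x) := fun z x => F.par_map _ _
  have hpar : F.map r ∘ₗ F.par (T M (n + 1)) ∘ₗ F.map i = F.par D := by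
    refine LinearMap.ext fun x => ?_
    change F.map r (F.par _ (F.map i x)) = F.par D x
    rw [← F.par_map, hid]
  have hW : C (F.par (T M (n + 1)) ∘ₗ E ∘ₗ F.map (rh φ (n + 1) (zc e))) ∈ AlgOp F M := by
    refine c_mem C hCm ?_
    have h1 := conj_mem (F := F) i r hir hri (F.par (T M (n + 1)) ∘ₗ E) (fun z x => by
      change F.par _ (E (F.map (rh φ (n + 1) z) x)) = F.map (rh φ (n + 1) z) (F.par _ (E x))
      rw [hEz, hparz]) (by
      have h2 : F.map r ∘ₗ (F.par (T M (n + 1)) ∘ₗ E) ∘ₗ F.map i =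
          F.par D ∘ₗ (F.map r ∘ₗ E ∘ₗ F.map i) := by
        refine LinearMap.ext fun x => ?_
        change F.map r (F.par _ (E (F.map i x))) = F.par D (F.map r (E (F.map i x)))
        rw [F.par_map]
      rw [h2]
      exact alg_comp hσ hS)
    exact h1
  obtain ⟨α, c, hα, hpsi⟩ := psi hφ b δ hδ hb n B hB C hC e q hqc hqs y hy E hE
  -- the positive operator
  have hU0 : C (F.par (T M (n + 1)) ∘ₗ F.map (rh φ (n + 1) (zc e))) ∈ AlgOp F M := by
    refine c_mem C hCm ?_
    exact conj_mem (F := F) i r hir hri (F.par (T M (n + 1))) hparz (by rw [hpar]; exact hσ)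
  let Y : Fin d → (F.V M →ₗ[K] F.V M) := fun a =>
    (LinearMap.toSpanSingleton K (F.V M) (b a)) ∘ₗ b.coord a
  have hY : ∀ a j, Y a (b j) = (if j = a then (1 : K) else 0) • b j := by
    intro a j
    change (b.coord a (b j)) • b a = _
    rw [Module.Basis.coord_apply, Module.Basis.repr_self, Finsupp.single_apply]
    by_cases h : j = a
    · rw [if_pos h, h]
    · rw [if_neg h, zero_smul, zero_smul]
  have hYe : ∀ a, Ev F (Y a) := by
    intro a
    have h1 : F.par M ∘ₗ Y a = Y a ∘ₗ F.par M := by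
      refine b.ext fun j => ?_
      change F.par M (Y a (b j)) = Y a (F.par M (b j))
      have h2 : F.par M (Y a (b j)) = (if j = a then (1 : K) else 0) • ((δ j : K) • b j) := by
        rw [hY, _root_.map_smul, hb]
      have h3 : Y a (F.par M (b j)) = (δ j : K) • ((if j = a then (1 : K) else 0) • b j) := by
        rw [hb, _root_.map_smul, hY]
      rw [h2, h3, smul_comm]
    exact fun x => LinearMap.congr_fun h1 x
  have hex := fun a => exists_der hφ (Y a) (hYe a) (n + 1)
  choose EY hEY _ _ using hex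
  have hsumY : ∀ x, ∑ a, Y a x = x := by
    have h1 : (∑ a, Y a) = LinearMap.id := by
      refine b.ext fun j => ?_
      rw [LinearMap.sum_apply, LinearMap.id_apply, Finset.sum_eq_single j]
      · rw [hY, if_pos rfl, one_smul]
      · intro a _ ha
        rw [hY, if_neg (Ne.symm ha), zero_smul]
      · intro h; exact absurd (Finset.mem_univ j) h
    intro x
    have := LinearMap.congr_fun h1 x
    rwa [LinearMap.sum_apply] at this
  have hEid : ∑ a, EY a = ((n + 1 : ℕ) : K) • LinearMap.id := by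
    refine der_unique LinearMap.id (n + 1) _ _ ?_ ?_
    · intro v
      rw [LinearMap.sum_apply]
      have h1 : ∀ a, EY a (wd F (n + 1) v) =
          ∑ j, wd F (n + 1) (Function.update v j (Y a (v j))) := fun a => hEY a v
      simp only [h1]
      rw [Finset.sum_comm]
      refine Finset.sum_congr rfl fun j _ => ?_
      rw [LinearMap.id_apply]
      conv_rhs => rw [← hsumY (v j)]
      have h2 := (WD.wdM F M (n + 1)).map_update_sum Finset.univ j (fun a => Y a (v j)) v
      rw [WD.wdM_apply] at h2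
      refine (h2.trans ?_).symm
      exact Finset.sum_congr rfl fun a _ => WD.wdM_apply F M (n + 1) _
    · intro v
      rw [LinearMap.smul_apply, LinearMap.id_apply]
      simp only [LinearMap.id_apply, Function.update_eq_self, Finset.sum_const, Finset.card_univ,
        Fintype.card_fin]
      rw [← Nat.cast_smul_eq_nsmul K]
  set f : Fin d → ℚ := fun i => n.factorial * ∑ a, mom q a i with hf
  set U : F.V M →ₗ[K] F.V M := ((n + 1 : ℕ) : K) •
    C (F.par (T M (n + 1)) ∘ₗ F.map (rh φ (n + 1) (zc e))) with hUdef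
  have hU : U ∈ AlgOp F M := Submodule.smul_mem _ _ hU0
  have hUb : ∀ i, U (b i) = ((δ i * f i : ℚ) : K) • b i := by
    intro i
    have h1 : U = ∑ a, C (F.par (T M (n + 1)) ∘ₗ EY a ∘ₗ F.map (rh φ (n + 1) (zc e))) := by
      rw [← map_sum, hUdef, ← map_smul]
      congr 1
      refine LinearMap.ext fun x => ?_
      rw [LinearMap.sum_apply, LinearMap.smul_apply]
      change _ = ∑ a, F.par _ (EY a (F.map (rh φ (n + 1) (zc e)) x))
      rw [← map_sum, ← LinearMap.sum_apply, hEid, LinearMap.smul_apply, LinearMap.id_apply,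
        _root_.map_smul]
      rfl
    rw [h1, LinearMap.sum_apply]
    have h2 : ∀ a, C (F.par (T M (n + 1)) ∘ₗ EY a ∘ₗ F.map (rh φ (n + 1) (zc e))) (b i) =
        ((δ i * (n.factorial * mom q a i) : ℚ) : K) • b i := fun a =>
      pdiag hφ b δ hδ hb n B hB C hC e q hqc a (Y a) (hY a) (EY a) (hEY a) i
    simp only [h2]
    rw [← Finset.sum_smul, ← Rat.cast_sum]
    congr 2
    rw [hf, ← Finset.mul_sum, ← Finset.mul_sum]
  have hn : (0 : ℚ) < n.factorial := by exact_mod_cast n.factorial_pos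
  have hfpos : ∀ i, 0 < f i := by
    intro i
    obtain ⟨w, ⟨l, hl⟩, hw⟩ := posl F hφ b δ hδ hb n e hne i
    have h1 : 0 < q w := lt_of_le_of_ne (hq0 w) (hqw w hw).symm
    have h2 : 0 < cnt w i := by
      unfold cnt
      exact Finset.card_pos.2 ⟨l, by simp [hl]⟩
    have h3 : (0 : ℚ) < cnt w i := by exact_mod_cast h2
    have hnn : ∀ a j, 0 ≤ mom q a j := by
      intro a j
      refine Finset.sum_nonneg fun w _ => ?_
      have := hq0 w
      positivity
    refine mul_pos hn (Finset.sum_pos' (fun a _ => hnn a i) ⟨i, Finset.mem_univ _, ?_⟩)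
    refine Finset.sum_pos' (fun w _ => ?_) ⟨w, Finset.mem_univ _, by positivity⟩
    have := hq0 w
    positivity
  refine fin b δ hδ hb U hU f hfpos hUb y hy _ hW α c ?_ hpsi
  intro i j hij hδij
  rw [hα i j hij hδij]
  have h1 : mom q i j < mom q i i := by
    refine mom_pos q hq0 i j (hqs i j hδij) ?_
    by_cases hl : ∃ l, δ l = -δ i
    · obtain ⟨l, hl⟩ := hl
      obtain ⟨w, hw, hc⟩ := sepA hφ b δ hδ hb n e hne i j l hij hδij hl
      exact ⟨w, hqw w hw, hc⟩
    · have hall : ∀ l, δ l = δ i := by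
        intro l
        by_contra h3
        apply hl
        refine ⟨l, ?_⟩
        rcases hδ l with h4 | h4 <;> rcases hδ i with h5 | h5
        · exact absurd (h4.trans h5.symm) h3
        · rw [h4, h5]; norm_num
        · rw [h4, h5]
        · exact absurd (h4.trans h5.symm) h3
      rcases hc with ⟨⟨x, hx, hx'⟩, ⟨y, hy, hy'⟩⟩ | hc
      · exfalso
        have hM : ∀ x, F.par M x = (δ i : K) • x := by
          intro x
          have h1 : F.par M = (δ i : K) • (LinearMap.id : F.V M →ₗ[K] F.V M) := by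
            refine b.ext fun l => ?_
            rw [hb l, LinearMap.smul_apply, LinearMap.id_apply, hall l]
          rw [h1]
          rfl
        rw [hM] at hx' hy'
        rcases hδ i with h3 | h3
        · rw [h3, Rat.cast_one, one_smul] at hy'
          have h4 : (2 : K) • y = 0 := by
            rw [two_smul]
            nth_rewrite 1 [hy']
            exact neg_add_cancel y
          exact hy ((smul_eq_zero.1 h4).resolve_left two_ne_zero)
        · rw [h3, Rat.cast_neg, Rat.cast_one, neg_smul, one_smul] at hx'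
          have h4 : (2 : K) • x = 0 := by
            rw [two_smul]
            nth_rewrite 1 [← hx']
            exact neg_add_cancel x
          exact hx ((smul_eq_zero.1 h4).resolve_left two_ne_zero)
      · obtain ⟨w, -, hw⟩ := posl F hφ b δ hδ hb n e hne i
        refine exists_unbalanced q ⟨w, hqw w hw⟩ (fun k l => hqs k l ((hall k).trans (hall l).symm))
          ?_ i j hij
        rw [Fintype.card_fin]
        rwa [Module.finrank_eq_card_basis b, Fintype.card_fin] at hc
  have h2 : 0 < (n.factorial : ℚ) * (mom q i i - mom q i j) := mul_pos hn (by linarith)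
  exact h2.ne'

end Pool.Agent.Helper96.VH
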