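import Pool.Agent.Helper96.VH.Defs
import Pool.Agent.Helper96.SP.PWD

/-!
# The operator which a derivation induces (package PSI, by helper28), from EQV, PDIAG, DER
-/

open CategoryTheory MonoidalCategory Limits BraidedCategory

universe u v w

namespace Pool.Agent.Helper96.VH.PSIX

open Pool.Agent.TH90.AB Pool.Agent.TH90.Kim Pool.Agent.Helper96.Kim Pool.Agent.Helper96.SP
  Pool.Agent.Helper96.VH

variable {𝒜 : Type u} [Category.{v} 𝒜] [MonoidalCategory 𝒜] [SymmetricCategory 𝒜]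
  [Preadditive 𝒜] [MonoidalPreadditive 𝒜] [Linear ℚ 𝒜] [MonoidalLinear ℚ 𝒜]
  {K : Type w} [Field K] [CharZero K] {F : Realisation 𝒜 K}

theorem der_sum {M : 𝒜} {κ : Type} (s : Finset κ) (c : κ → K) (y : κ → (F.V M →ₗ[K] F.V M)) (n : ℕ)
    (E : κ → (F.V (T M n) →ₗ[K] F.V (T M n))) (h : ∀ a ∈ s, IsDer F (y a) n (E a)) :
    IsDer F (∑ a ∈ s, c a • y a) n (∑ a ∈ s, c a • E a) := by
  intro v
  have h1 : ∀ j, wd F n (Function.update v j ((∑ a ∈ s, c a • y a) (v j))) =
      ∑ a ∈ s, c a • wd F n (Function.update v j (y a (v j))) := by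
    intro j
    rw [← WD.wdM_apply, LinearMap.sum_apply, MultilinearMap.map_update_sum]
    refine Finset.sum_congr rfl fun a _ => ?_
    rw [LinearMap.smul_apply, MultilinearMap.map_update_smul, WD.wdM_apply]
  simp only [h1]
  rw [LinearMap.sum_apply, Finset.sum_comm]
  refine Finset.sum_congr rfl fun a ha => ?_
  rw [LinearMap.smul_apply, h a ha v, Finset.smul_sum]

theorem der_comp {M : 𝒜} {n : ℕ} (x y : F.V M →ₗ[K] F.V M)
    (Ex Ey : F.V (T M n) →ₗ[K] F.V (T M n)) (hx : IsDer F x n Ex) (hy : IsDer F y n Ey)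
    (v : Fin n → F.V M) :
    Ex (Ey (wd F n v)) = ∑ j, wd F n (Function.update v j (x (y (v j)))) +
      ∑ j, ∑ k ∈ Finset.univ.erase j,
        wd F n (Function.update (Function.update v j (y (v j))) k (x (v k))) := by
  rw [hy v, _root_.map_sum, ← Finset.sum_add_distrib]
  refine Finset.sum_congr rfl fun j _ => ?_
  rw [hx, ← Finset.add_sum_erase _ _ (Finset.mem_univ j)]
  congr 1
  · rw [Function.update_self, Function.update_idem]
  · refine Finset.sum_congr rfl fun k hk => ?_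
    rw [Function.update_of_ne (Finset.ne_of_mem_erase hk)]

theorem der_comm {M : 𝒜} {n : ℕ} (x y : F.V M →ₗ[K] F.V M)
    (Ex Ey : F.V (T M n) →ₗ[K] F.V (T M n)) (hx : IsDer F x n Ex) (hy : IsDer F y n Ey) :
    IsDer F (x ∘ₗ y - y ∘ₗ x) n (Ex ∘ₗ Ey - Ey ∘ₗ Ex) := by
  intro v
  have hswap : ∑ j, ∑ k ∈ Finset.univ.erase j,
      wd F n (Function.update (Function.update v j (y (v j))) k (x (v k))) =
      ∑ j, ∑ k ∈ Finset.univ.erase j,
        wd F n (Function.update (Function.update v j (x (v j))) k (y (v k))) := by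
    rw [Finset.sum_comm' (t' := Finset.univ) (s' := fun k => Finset.univ.erase k)]
    · refine Finset.sum_congr rfl fun k _ => Finset.sum_congr rfl fun j hj => ?_
      rw [Function.update_comm (Finset.ne_of_mem_erase hj)]
    · intro a c
      simp [ne_comm]
  rw [LinearMap.sub_apply, LinearMap.comp_apply, LinearMap.comp_apply, der_comp x y Ex Ey hx hy v,
    der_comp y x Ey Ex hy hx v, hswap, add_sub_add_right_eq_sub, ← Finset.sum_sub_distrib]
  refine Finset.sum_congr rfl fun j _ => ?_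
  rw [← WD.wdM_apply, ← WD.wdM_apply, ← WD.wdM_apply, LinearMap.sub_apply, LinearMap.comp_apply,
    LinearMap.comp_apply, MultilinearMap.map_update_sub]

theorem mom_symm {ι : Type} [Fintype ι] [DecidableEq ι] {n : ℕ} (q : (Fin n → ι) → ℚ) (a i : ι) :
    mom q a i = mom q i a := by
  unfold mom
  refine Finset.sum_congr rfl fun w _ => ?_
  ring

theorem mom_swap {ι : Type} [Fintype ι] [DecidableEq ι] {n : ℕ} (q : (Fin n → ι) → ℚ) (i j : ι)
    (h : ∀ w, q (fun k => Equiv.swap i j (w k)) = q w) (a c : ι) :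
    mom q (Equiv.swap i j a) (Equiv.swap i j c) = mom q a c := by
  have hc : ∀ (w : Fin n → ι) (a : ι), cnt (fun k => Equiv.swap i j (w k)) (Equiv.swap i j a) = cnt w a := by
    intro w a
    unfold cnt
    congr 1
    ext k
    simp
  unfold mom
  symm
  refine Fintype.sum_equiv (Equiv.arrowCongr (Equiv.refl (Fin n)) (Equiv.swap i j)) _ _ fun w => ?_
  have e : (Equiv.arrowCongr (Equiv.refl (Fin n)) (Equiv.swap i j)) w = fun k => Equiv.swap i j (w k) := rfl
  rw [e, h, hc, hc]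

section mom

variable {ι : Type} [Fintype ι] [DecidableEq ι] {n : ℕ} {q : (Fin n → ι) → ℚ} {δ : ι → ℚ}
  (hqs : ∀ i j, δ i = δ j → ∀ w, q (fun k => Equiv.swap i j (w k)) = q w)

include hqs

theorem mom_diag {i j : ι} (h : δ i = δ j) : mom q i i = mom q j j := by
  have := mom_swap q i j (hqs i j h) i i
  rw [Equiv.swap_apply_left] at this
  exact this.symm

theorem mom_off {a i j : ι} (h : δ i = δ j) (hi : a ≠ i) (hj : a ≠ j) : mom q a i = mom q a j := by
  have := mom_swap q i j (hqs i j h) a i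
  rw [Equiv.swap_apply_left, Equiv.swap_apply_of_ne_of_ne hi hj] at this
  exact this.symm

theorem mom_pair {i j i' j' : ι} (h1 : δ i = δ j) (h2 : δ i' = δ j') (h3 : δ i = δ i') (hij : i ≠ j)
    (hij' : i' ≠ j') : mom q i j = mom q i' j' := by
  by_cases h : j = i'
  · subst h
    rw [mom_symm q i j]
    exact mom_off hqs (h3.trans h2) hij.symm hij'
  · rw [mom_symm q i j, mom_off hqs h3 hij.symm h, mom_symm q j i']
    exact mom_off hqs (h1.symm.trans (h3.trans h2)) (Ne.symm h) hij'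

end mom

theorem psi_of {M : 𝒜} {ι : Type} [Fintype ι] [DecidableEq ι]
    (b : Module.Basis ι K (F.V M))
    (δ : ι → ℚ) (hb : ∀ i, F.par M (b i) = (δ i : K) • b i) (n : ℕ)
    (C : (F.V (T M (n + 1)) →ₗ[K] F.V (T M (n + 1))) →ₗ[K] (F.V M →ₗ[K] F.V M))
    (Z : F.V (T M (n + 1)) →ₗ[K] F.V (T M (n + 1))) (q : (Fin (n + 1) → ι) → ℚ)
    (heqv : ∀ (x : F.V M →ₗ[K] F.V M), Ev F x → ∀ (E : F.V (T M (n + 1)) →ₗ[K] F.V (T M (n + 1))),
      IsDer F x (n + 1) E → ∀ H : F.V (T M (n + 1)) →ₗ[K] F.V (T M (n + 1)),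
        C (E ∘ₗ H - H ∘ₗ E) = x ∘ₗ C H - C H ∘ₗ x)
    (hpd : ∀ (a : ι) (y : F.V M →ₗ[K] F.V M), (∀ i, y (b i) = (if i = a then (1 : K) else 0) • b i) →
      ∀ (E : F.V (T M (n + 1)) →ₗ[K] F.V (T M (n + 1))), IsDer F y (n + 1) E → ∀ i,
        C (F.par (T M (n + 1)) ∘ₗ E ∘ₗ Z) (b i) = ((δ i * (n.factorial * mom q a i) : ℚ) : K) • b i)
    (hder : ∀ y : F.V M →ₗ[K] F.V M, Ev F y → ∃ E : F.V (T M (n + 1)) →ₗ[K] F.V (T M (n + 1)),
      IsDer F y (n + 1) E ∧ (∀ x, E (Z x) = Z (E x)) ∧ Ev F E)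
    (huniq : ∀ (y : F.V M →ₗ[K] F.V M) (E E' : F.V (T M (n + 1)) →ₗ[K] F.V (T M (n + 1))),
      IsDer F y (n + 1) E → IsDer F y (n + 1) E' → E = E')
    (hqs : ∀ i j, δ i = δ j → ∀ w, q (fun k => Equiv.swap i j (w k)) = q w)
    (y : F.V M →ₗ[K] F.V M) (hy : Ev F y)
    (E : F.V (T M (n + 1)) →ₗ[K] F.V (T M (n + 1))) (hE : IsDer F y (n + 1) E) :
    ∃ (α : ℚ → ℚ) (c : ℚ → K), (∀ i j, i ≠ j → δ i = δ j →
        α (δ i) = n.factorial * (mom q i i - mom q i j)) ∧
      ∀ i, C (F.par (T M (n + 1)) ∘ₗ E ∘ₗ Z) (b i) =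
        ((δ i * α (δ i) : ℚ) : K) • y (b i) + c (δ i) • b i := by
  classical
  -- elementary operators
  let e : ι → ι → (F.V M →ₗ[K] F.V M) := fun a j => (b.coord j).smulRight (b a)
  have he : ∀ a j i, e a j (b i) = (if i = j then (1 : K) else 0) • b a := by
    intro a j i
    simp only [e, LinearMap.smulRight_apply, Module.Basis.coord_apply, Module.Basis.repr_self]
    rw [Finsupp.single_apply]
  have hev : ∀ a j, δ a = δ j → Ev F (e a j) := by
    intro a j haj
    have h1 : F.par M ∘ₗ e a j = e a j ∘ₗ F.par M := by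
      refine b.ext fun i => ?_
      rw [LinearMap.comp_apply, LinearMap.comp_apply, he, hb, _root_.map_smul, _root_.map_smul, he, hb]
      split_ifs with h
      · rw [h, haj]
        simp only [one_smul]
      · simp
    exact fun x => LinearMap.congr_fun h1 x
  have hD : ∀ p : ι × ι, ∃ D : F.V (T M (n + 1)) →ₗ[K] F.V (T M (n + 1)), δ p.1 = δ p.2 →
      IsDer F (e p.1 p.2) (n + 1) D ∧ (∀ x, D (Z x) = Z (D x)) ∧ Ev F D := by
    intro p
    by_cases h : δ p.1 = δ p.2
    · obtain ⟨D, hD⟩ := hder _ (hev _ _ h)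
      exact ⟨D, fun _ => hD⟩
    · exact ⟨0, fun h' => absurd h' h⟩
  choose D hD using hD
  let Ψ : (F.V (T M (n + 1)) →ₗ[K] F.V (T M (n + 1))) → (F.V M →ₗ[K] F.V M) := fun D =>
    C (F.par (T M (n + 1)) ∘ₗ D ∘ₗ Z)
  have hΨd : ∀ a i, Ψ (D (a, a)) (b i) = ((δ i * (n.factorial * mom q a i) : ℚ) : K) • b i := by
    intro a i
    refine hpd a (e a a) ?_ (D (a, a)) (hD (a, a) rfl).1 i
    intro i
    rw [he]
    split_ifs with h
    · rw [h]
    · simp
  have hΨo : ∀ a j, a ≠ j → δ a = δ j → ∀ i, Ψ (D (a, j)) (b i) =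
      (if i = j then ((δ j * (n.factorial * (mom q j j - mom q j a)) : ℚ) : K) else 0) • b a := by
    intro a j haj hδ i
    obtain ⟨h1, h2, h3⟩ := hD (a, j) hδ
    obtain ⟨k1, k2, k3⟩ := hD (j, j) rfl
    have hc : e a j ∘ₗ e j j - e j j ∘ₗ e a j = e a j := by
      refine b.ext fun i => ?_
      rw [LinearMap.sub_apply, LinearMap.comp_apply, LinearMap.comp_apply, he, he, _root_.map_smul,
        _root_.map_smul, he, he, if_pos rfl, if_neg haj]
      simp
    have hcD : D (a, j) = D (a, j) ∘ₗ D (j, j) - D (j, j) ∘ₗ D (a, j) := by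
      refine huniq (e a j) _ _ h1 ?_
      have := der_comm _ _ _ _ h1 k1
      simp only at this
      rw [hc] at this
      exact this
    have hop : F.par (T M (n + 1)) ∘ₗ D (a, j) ∘ₗ Z =
        D (a, j) ∘ₗ (F.par (T M (n + 1)) ∘ₗ D (j, j) ∘ₗ Z) -
          (F.par (T M (n + 1)) ∘ₗ D (j, j) ∘ₗ Z) ∘ₗ D (a, j) := by
      refine LinearMap.ext fun x => ?_
      simp only [LinearMap.comp_apply, LinearMap.sub_apply]
      conv_lhs => rw [hcD]
      simp only [LinearMap.comp_apply, LinearMap.sub_apply]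
      rw [_root_.map_sub, h3, ← h2 x]
    have hfin : Ψ (D (a, j)) = e a j ∘ₗ Ψ (D (j, j)) - Ψ (D (j, j)) ∘ₗ e a j := by
      simp only [Ψ]
      rw [← heqv (e a j) (hev a j hδ) (D (a, j)) h1, ← hop]
    rw [hfin, LinearMap.sub_apply, LinearMap.comp_apply, LinearMap.comp_apply, hΨd, _root_.map_smul, he,
      _root_.map_smul, hΨd]
    split_ifs with h
    · subst h
      rw [one_smul, one_smul, ← sub_smul, hδ]
      congr 1
      push_cast
      ring
    · simp
  -- the coordinates of `y`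
  let Y : ι → ι → K := fun a j => b.repr (y (b j)) a
  have hY0 : ∀ a j, δ a ≠ δ j → Y a j = 0 := by
    intro a j haj
    have h1 := hy (b j)
    rw [hb, _root_.map_smul] at h1
    have h2 := congrArg (fun z => b.repr z a) h1
    simp only [_root_.map_smul, Finsupp.smul_apply, smul_eq_mul] at h2
    have h3 : b.repr (F.par M (y (b j))) a = (δ a : K) * Y a j := by
      have h4 : y (b j) = ∑ l, Y l j • b l := (b.sum_repr (y (b j))).symm
      rw [h4, _root_.map_sum, _root_.map_sum, Finset.sum_apply']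
      rw [Finset.sum_eq_single a]
      · rw [_root_.map_smul, hb, _root_.map_smul, _root_.map_smul, Module.Basis.repr_self]
        simp [mul_comm]
      · intro l _ hl
        rw [_root_.map_smul, hb, _root_.map_smul, _root_.map_smul, Module.Basis.repr_self]
        simp [Finsupp.single_apply, hl]
      · simp
    rw [h3] at h2
    have h5 : ((δ a : K) - (δ j : K)) * Y a j = 0 := by
      rw [sub_mul, h2]
      simp only [Y]
      ring
    rcases mul_eq_zero.1 h5 with h | h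
    · exact absurd (by exact_mod_cast sub_eq_zero.1 h) haj
    · exact h
  have hyb : ∀ i, y (b i) = ∑ a, Y a i • b a := fun i => (b.sum_repr (y (b i))).symm
  let P : Finset (ι × ι) := Finset.univ.filter fun p => δ p.1 = δ p.2
  have hysum : y = ∑ p ∈ P, Y p.1 p.2 • e p.1 p.2 := by
    have h1 : ∑ p ∈ P, Y p.1 p.2 • e p.1 p.2 = ∑ p : ι × ι, Y p.1 p.2 • e p.1 p.2 := by
      refine Finset.sum_subset (Finset.filter_subset _ _) fun p _ hp => ?_
      rw [hY0 _ _ (fun h => hp (Finset.mem_filter.2 ⟨Finset.mem_univ _, h⟩)), zero_smul]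
    rw [h1]
    refine b.ext fun i => ?_
    rw [hyb, LinearMap.sum_apply, Fintype.sum_prod_type]
    refine Finset.sum_congr rfl fun a _ => ?_
    rw [Finset.sum_eq_single i]
    · rw [LinearMap.smul_apply, he, if_pos rfl, one_smul]
    · intro j _ hj
      rw [LinearMap.smul_apply, he, if_neg (Ne.symm hj), zero_smul, smul_zero]
    · simp
  have hEsum : E = ∑ p ∈ P, Y p.1 p.2 • D p := by
    refine huniq y _ _ hE ?_
    have h1 := der_sum (F := F) P (fun p => Y p.1 p.2) (fun p => e p.1 p.2) (n + 1) D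
      (fun p hp => (hD p (Finset.mem_filter.1 hp).2).1)
    rw [← hysum] at h1
    exact h1
  have hΨE : ∀ i, C (F.par (T M (n + 1)) ∘ₗ E ∘ₗ Z) (b i) = ∑ p ∈ P, Y p.1 p.2 • Ψ (D p) (b i) := by
    intro i
    have h1 : F.par (T M (n + 1)) ∘ₗ E ∘ₗ Z = ∑ p ∈ P, Y p.1 p.2 • (F.par (T M (n + 1)) ∘ₗ D p ∘ₗ Z) := by
      refine LinearMap.ext fun x => ?_
      rw [hEsum]
      simp only [LinearMap.comp_apply, LinearMap.sum_apply, LinearMap.smul_apply, _root_.map_sum,
        _root_.map_smul]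
    rw [h1, _root_.map_sum, LinearMap.sum_apply]
    refine Finset.sum_congr rfl fun p _ => ?_
    rw [_root_.map_smul, LinearMap.smul_apply]
  -- the constants
  let α : ℚ → ℚ := fun t => if h : ∃ p : ι × ι, p.1 ≠ p.2 ∧ δ p.1 = δ p.2 ∧ δ p.1 = t then
    n.factorial * (mom q h.choose.1 h.choose.1 - mom q h.choose.1 h.choose.2) else 0
  have hα : ∀ i j, i ≠ j → δ i = δ j → α (δ i) = n.factorial * (mom q i i - mom q i j) := by
    intro i j hij hδ
    have h : ∃ p : ι × ι, p.1 ≠ p.2 ∧ δ p.1 = δ p.2 ∧ δ p.1 = δ i := ⟨(i, j), hij, hδ, rfl⟩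
    simp only [α]
    rw [dif_pos h]
    obtain ⟨h1, h2, h3⟩ := h.choose_spec
    rw [mom_diag hqs h3, mom_pair hqs h2 hδ h3 h1 hij]
  let val : ι → K := fun i => ∑ a, Y a a * ((δ i * (n.factorial * mom q a i) : ℚ) : K) -
    ((δ i * α (δ i) : ℚ) : K) * Y i i
  have hval : ∀ i j, δ i = δ j → val i = val j := by
    intro i j hδ
    by_cases hij : i = j
    · rw [hij]
    have h1 : ∑ a, Y a a * ((δ i * (n.factorial * mom q a i) : ℚ) : K) -
        ∑ a, Y a a * ((δ i * (n.factorial * mom q a j) : ℚ) : K) =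
        Y i i * ((δ i * (n.factorial * (mom q i i - mom q i j)) : ℚ) : K) -
          Y j j * ((δ i * (n.factorial * (mom q j j - mom q j i)) : ℚ) : K) := by
      rw [← Finset.sum_sub_distrib]
      rw [← Finset.add_sum_erase _ _ (Finset.mem_univ i),
        ← Finset.add_sum_erase _ _ (Finset.mem_erase.2 ⟨Ne.symm hij, Finset.mem_univ j⟩)]
      rw [Finset.sum_eq_zero]
      · push_cast
        ring
      · intro a ha
        obtain ⟨ha1, ha2⟩ := Finset.mem_erase.1 ha
        obtain ⟨ha3, -⟩ := Finset.mem_erase.1 ha2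
        rw [mom_off hqs hδ ha3 ha1, sub_self]
    have h2 := hα i j hij hδ
    have h3 := hα j i (Ne.symm hij) hδ.symm
    simp only [val]
    rw [← hδ] at h3 ⊢
    have h4 : (n.factorial * (mom q i i - mom q i j) : ℚ) = n.factorial * (mom q j j - mom q j i) :=
      h2.symm.trans h3
    rw [← h4, ← h2] at h1
    rw [sub_eq_sub_iff_add_eq_add]
    linear_combination h1
  let c : ℚ → K := fun t => if h : ∃ i, δ i = t then val h.choose else 0
  have hc : ∀ i, c (δ i) = val i := by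
    intro i
    have h : ∃ j, δ j = δ i := ⟨i, rfl⟩
    simp only [c]
    rw [dif_pos h]
    exact hval _ _ h.choose_spec
  refine ⟨α, c, hα, fun i => ?_⟩
  rw [hΨE, hc]
  -- the sum over the pairs
  have hsplit : ∑ p ∈ P, Y p.1 p.2 • Ψ (D p) (b i) =
      ∑ a, Y a a • Ψ (D (a, a)) (b i) + ∑ p ∈ P.filter (fun p => p.1 ≠ p.2), Y p.1 p.2 • Ψ (D p) (b i) := by
    rw [← Finset.sum_filter_add_sum_filter_not P (fun p => p.1 = p.2)]
    congr 1
    symm
    refine Finset.sum_bij (fun a _ => (a, a)) ?_ ?_ ?_ ?_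
    · intro a _
      exact Finset.mem_filter.2 ⟨Finset.mem_filter.2 ⟨Finset.mem_univ _, rfl⟩, rfl⟩
    · intro a _ a' _ h
      exact (Prod.ext_iff.1 h).1
    · rintro ⟨a, a'⟩ hp
      obtain ⟨-, hp⟩ := Finset.mem_filter.1 hp
      exact ⟨a, Finset.mem_univ _, Prod.ext rfl hp⟩
    · intro a _
      rfl
  have hoff : ∑ p ∈ P.filter (fun p => p.1 ≠ p.2), Y p.1 p.2 • Ψ (D p) (b i) =
      ∑ a ∈ Finset.univ.erase i, (((δ i * α (δ i) : ℚ) : K) * Y a i) • b a := by
    have h1 : ∀ p ∈ P.filter (fun p => p.1 ≠ p.2), Y p.1 p.2 • Ψ (D p) (b i) =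
        if i = p.2 then (((δ i * α (δ i) : ℚ) : K) * Y p.1 i) • b p.1 else 0 := by
      rintro ⟨a, j⟩ hp
      obtain ⟨hp1, hp2⟩ := Finset.mem_filter.1 hp
      obtain ⟨-, hp1⟩ := Finset.mem_filter.1 hp1
      rw [hΨo a j hp2 hp1 i]
      simp only
      split_ifs with h
      · subst h
        rw [hα i a (Ne.symm hp2) hp1.symm, smul_smul, mul_comm]
      · rw [zero_smul, smul_zero]
    rw [Finset.sum_congr rfl h1, ← Finset.sum_filter]
    have h2 : ∑ a ∈ Finset.univ.erase i, (((δ i * α (δ i) : ℚ) : K) * Y a i) • b a =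
        ∑ a ∈ (Finset.univ.erase i).filter (fun a => δ a = δ i),
          (((δ i * α (δ i) : ℚ) : K) * Y a i) • b a := by
      symm
      refine Finset.sum_subset (Finset.filter_subset _ _) fun a ha ha' => ?_
      rw [hY0 a i (fun h => ha' (Finset.mem_filter.2 ⟨ha, h⟩)), mul_zero, zero_smul]
    rw [h2]
    refine Finset.sum_bij (fun p _ => p.1) ?_ ?_ ?_ ?_
    · rintro ⟨a, j⟩ hp
      obtain ⟨hp1, hp2⟩ := Finset.mem_filter.1 hp
      obtain ⟨hp3, hp4⟩ := Finset.mem_filter.1 hp1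
      obtain ⟨-, hp5⟩ := Finset.mem_filter.1 hp3
      simp only at hp2 hp4 hp5 ⊢
      subst hp2
      exact Finset.mem_filter.2 ⟨Finset.mem_erase.2 ⟨hp4, Finset.mem_univ _⟩, hp5⟩
    · rintro ⟨a, j⟩ hp ⟨a', j'⟩ hp' h
      obtain ⟨-, hp2⟩ := Finset.mem_filter.1 hp
      obtain ⟨-, hp2'⟩ := Finset.mem_filter.1 hp'
      exact Prod.ext h (hp2.symm.trans hp2')
    · intro a ha
      obtain ⟨ha1, ha2⟩ := Finset.mem_filter.1 ha
      obtain ⟨ha3, -⟩ := Finset.mem_erase.1 ha1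
      exact ⟨(a, i), Finset.mem_filter.2 ⟨Finset.mem_filter.2 ⟨Finset.mem_filter.2
        ⟨Finset.mem_univ _, ha2⟩, ha3⟩, rfl⟩, rfl⟩
    · intro p _
      rfl
  rw [hsplit, hoff, hyb i, Finset.smul_sum]
  rw [← Finset.add_sum_erase Finset.univ (fun a => ((δ i * α (δ i) : ℚ) : K) • Y a i • b a)
    (Finset.mem_univ i)]
  have hdiag : ∑ a, Y a a • Ψ (D (a, a)) (b i) =
      (∑ a, Y a a * ((δ i * (n.factorial * mom q a i) : ℚ) : K)) • b i := by
    rw [Finset.sum_smul]
    refine Finset.sum_congr rfl fun a _ => ?_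
    rw [hΨd, smul_smul]
  rw [hdiag]
  have hoff2 : ∑ a ∈ Finset.univ.erase i, ((δ i * α (δ i) : ℚ) : K) • Y a i • b a =
      ∑ a ∈ Finset.univ.erase i, (((δ i * α (δ i) : ℚ) : K) * Y a i) • b a :=
    Finset.sum_congr rfl fun a _ => smul_smul _ _ _
  rw [hoff2, smul_smul]
  simp only [val]
  rw [sub_smul]
  abel

end Pool.Agent.Helper96.VH.PSIX
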