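import Pool.Agent.Helper96.VH.Full
import Pool.Agent.Helper96.SP.PWD

/-!
# Transport of induced operators
-/

open CategoryTheory MonoidalCategory Limits BraidedCategory

universe u v w u' v'

namespace Pool.Agent.Helper96.VH

open Pool.Agent.TH90.AB Pool.Agent.TH90.Kim Pool.Agent.Helper96.Kim Pool.Agent.Helper96.SP

set_option linter.unusedSectionVars false

namespace TRANS

variable {𝒜 : Type u} [Category.{v} 𝒜] [MonoidalCategory 𝒜] [SymmetricCategory 𝒜]
  [Preadditive 𝒜] [MonoidalPreadditive 𝒜] [Linear ℚ 𝒜] [MonoidalLinear ℚ 𝒜]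
  [hdual : ∀ X : 𝒜, HasRightDual X] {K : Type w} [Field K] [CharZero K] {F : Realisation 𝒜 K}

/-- Linear maps which agree on words are equal. -/
lemma ext_words {M : 𝒜} {n : ℕ} {W : Type w} [AddCommGroup W] [Module K W]
    (f g : F.V (T M n) →ₗ[K] W) (h : ∀ v, f (wd F n v) = g (wd F n v)) : f = g := by
  classical
  obtain ⟨B, hB⟩ := wd_basis F (Module.finBasis K (F.V M)) n
  refine B.ext fun w => ?_
  rw [hB]
  exact h _

/-- The operator induced on the part. -/
lemma part_word {M D : 𝒜} {φ : Fam M} {n : ℕ} {e : QS n} (i : D ⟶ T M n) (r : T M n ⟶ D)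
    (hir : i ≫ r = 𝟙 D) (hri : r ≫ i = rh φ n e) (y : F.V M →ₗ[K] F.V M)
    (E : F.V (T M n) →ₗ[K] F.V (T M n)) (hE : IsDer F y n E)
    (hEz : ∀ z : QS n, ∀ x, E (F.map (rh φ n z) x) = F.map (rh φ n z) (E x))
    (v : Fin n → F.V M) : (F.map r ∘ₗ E ∘ₗ F.map i) (F.map r (wd F n v)) =
      ∑ j, F.map r (wd F n (Function.update v j (y (v j)))) := by
  have hri' : ∀ y, F.map i (F.map r y) = F.map (rh φ n e) y := by
    intro y
    rw [← hri, F.map_comp]
  have hid : ∀ x, F.map r (F.map i x) = x := by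
    intro x
    rw [← F.map_comp, hir, F.map_id]
  change F.map r (E (F.map i (F.map r (wd F n v)))) = _
  rw [hri', hEz, ← hri', hid, hE v, map_sum]

lemma ext_part {M D : 𝒜} {n : ℕ} (i : D ⟶ T M n) (r : T M n ⟶ D) (hir : i ≫ r = 𝟙 D)
    {W : Type w} [AddCommGroup W] [Module K W] (f g : F.V D →ₗ[K] W)
    (h : ∀ v, f (F.map r (wd F n v)) = g (F.map r (wd F n v))) (x : F.V D) : f x = g x := by
  have h1 : f ∘ₗ F.map r = g ∘ₗ F.map r := ext_words _ _ h
  have h2 := LinearMap.congr_fun h1 (F.map i x)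
  change f (F.map r (F.map i x)) = g (F.map r (F.map i x)) at h2
  rwa [← F.map_comp, hir, F.map_id] at h2

variable {ℬ : Type u'} [Category.{v'} ℬ] [MonoidalCategory ℬ] [SymmetricCategory ℬ]
  [Preadditive ℬ] [MonoidalPreadditive ℬ] [Linear ℚ ℬ] [MonoidalLinear ℚ ℬ]
  [hdual' : ∀ X : ℬ, HasRightDual X] {F' : Realisation ℬ K}

/-- The descent of the variational Hodge conjecture, for two points. -/
theorem descent {A D : 𝒜} {B D' : ℬ} {Γ : Type} (tr : F.V A ≃ₗ[K] F'.V B)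
    (trD : F.V D ≃ₗ[K] F'.V D') (mon : Γ → F.V A →ₗ[K] F.V A) (monD : Γ → F.V D →ₗ[K] F.V D)
    (tr_par : ∀ x, tr (F.par A x) = F'.par B (tr x))
    (trD_par : ∀ x, trD (F.par D x) = F'.par D' (trD x))
    (monD_par : ∀ g x, monD g (F.par D x) = F.par D (monD g x))
    {n : ℕ} (e : QS (n + 1)) (i : D ⟶ T A (n + 1)) (r : T A (n + 1) ⟶ D)
    (i' : D' ⟶ T B (n + 1)) (r' : T B (n + 1) ⟶ D') (hir : i ≫ r = 𝟙 D) (hir' : i' ≫ r' = 𝟙 D')
    {φ : Fam A} (hφ : PA φ) (hri : r ≫ i = rh φ (n + 1) e) {φ' : Fam B} (hφ' : PA φ')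
    (hri' : r' ≫ i' = rh φ' (n + 1) e)
    (htr : ∀ v, trD (F.map r (wd F (n + 1) v)) = F'.map r' (wd F' (n + 1) fun j => tr (v j)))
    (hmon : ∀ g v, monD g (F.map r (wd F (n + 1) v)) = F.map r (wd F (n + 1) fun j => mon g (v j)))
    (h0 : ∃ x : F.V D, x ≠ 0) (hsign : F'.par D' ∈ AlgOp F' D')
    (hc : ((∃ x : F.V A, x ≠ 0 ∧ F.par A x = x) ∧ ∃ x : F.V A, x ≠ 0 ∧ F.par A x = -x) ∨
      ¬ Module.finrank K (F.V A) ∣ n + 1)
    (h : ∀ S : F.V D →ₗ[K] F.V D, (∀ x, F.par D (S x) = S (F.par D x)) →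
      (∀ g x, S (monD g x) = monD g (S x)) →
      (∀ S' : F'.V D' →ₗ[K] F'.V D', (∀ x, S' x = trD (S (trD.symm x))) → S' ∈ AlgOp F' D') →
      S ∈ AlgOp F D)
    (y : F.V A →ₗ[K] F.V A) (hy : ∀ x, F.par A (y x) = y (F.par A x))
    (hyg : ∀ g x, y (mon g x) = mon g (y x))
    (halg : ∀ y' : F'.V B →ₗ[K] F'.V B, (∀ x, y' x = tr (y (tr.symm x))) → y' ∈ AlgOp F' B) :
    y ∈ AlgOp F A := by
  let y' : F'.V B →ₗ[K] F'.V B :=
    (tr : F.V A →ₗ[K] F'.V B) ∘ₗ y ∘ₗ (tr.symm : F'.V B →ₗ[K] F.V A)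
  have hy'x : ∀ x, y' (tr x) = tr (y x) := by
    intro x
    change tr (y (tr.symm (tr x))) = _
    rw [LinearEquiv.symm_apply_apply]
  have hy'par : Ev F' y' := by
    intro x
    obtain ⟨x, rfl⟩ := tr.surjective x
    rw [hy'x, ← tr_par, ← tr_par, hy'x, hy]
  have hy'alg : y' ∈ AlgOp F' B := halg y' fun x => rfl
  obtain ⟨E, hE, hEz, hEp⟩ := exists_der (F := F) hφ y hy (n + 1)
  obtain ⟨E', hE', hEz', hEp'⟩ := exists_der (F := F') hφ' y' hy'par (n + 1)
  have hS'alg : F'.map r' ∘ₗ E' ∘ₗ F'.map i' ∈ AlgOp F' D' :=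
    FULL.map_mem r' i' (alg_der y' hy'alg (n + 1) E' hE')
  set S : F.V D →ₗ[K] F.V D := F.map r ∘ₗ E ∘ₗ F.map i with hS
  have hSw : ∀ v, S (F.map r (wd F (n + 1) v)) =
      ∑ j, F.map r (wd F (n + 1) (Function.update v j (y (v j)))) :=
    fun v => part_word (F := F) i r hir hri y E hE hEz v
  have hSw' : ∀ v, (F'.map r' ∘ₗ E' ∘ₗ F'.map i') (F'.map r' (wd F' (n + 1) v)) =
      ∑ j, F'.map r' (wd F' (n + 1) (Function.update v j (y' (v j)))) :=
    fun v => part_word (F := F') i' r' hir' hri' y' E' hE' hEz' v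
  have hST : ∀ x, trD (S x) = (F'.map r' ∘ₗ E' ∘ₗ F'.map i') (trD x) := by
    refine ext_part (F := F) i r hir ((trD : F.V D →ₗ[K] F'.V D') ∘ₗ S)
      ((F'.map r' ∘ₗ E' ∘ₗ F'.map i') ∘ₗ (trD : F.V D →ₗ[K] F'.V D')) ?_
    intro v
    change trD (S (F.map r (wd F (n + 1) v))) =
      (F'.map r' ∘ₗ E' ∘ₗ F'.map i') (trD (F.map r (wd F (n + 1) v)))
    rw [hSw, htr, hSw', map_sum]
    refine Finset.sum_congr rfl fun j _ => ?_
    rw [htr]
    congr 2
    funext k
    by_cases hk : k = j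
    · subst hk
      rw [Function.update_self, Function.update_self, hy'x]
    · rw [Function.update_of_ne hk, Function.update_of_ne hk]
  have hSmon : ∀ g x, S (monD g x) = monD g (S x) := by
    intro g
    refine ext_part (F := F) i r hir (S ∘ₗ monD g) (monD g ∘ₗ S) ?_
    intro v
    change S (monD g (F.map r (wd F (n + 1) v))) = monD g (S (F.map r (wd F (n + 1) v)))
    rw [hmon, hSw, hSw, map_sum]
    refine Finset.sum_congr rfl fun j _ => ?_
    rw [hmon]
    congr 2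
    funext k
    by_cases hk : k = j
    · subst hk
      rw [Function.update_self, Function.update_self, hyg]
    · rw [Function.update_of_ne hk, Function.update_of_ne hk]
  have hSpar : ∀ x, F.par D (S x) = S (F.par D x) := by
    intro x
    change F.par _ (F.map r (E (F.map i x))) = F.map r (E (F.map i (F.par _ x)))
    rw [F.par_map, hEp, F.par_map]
  have hSalg : S ∈ AlgOp F D := by
    refine h S hSpar hSmon fun S' hS' => ?_
    have : S' = F'.map r' ∘ₗ E' ∘ₗ F'.map i' := by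
      refine LinearMap.ext fun x => ?_
      rw [hS', hST, LinearEquiv.apply_symm_apply]
    rw [this]
    exact hS'alg
  have hparalg : F.par D ∈ AlgOp F D := by
    refine h (F.par D) (fun x => rfl) (fun g x => (monD_par g x).symm) fun S' hS' => ?_
    have : S' = F'.par D' := by
      refine LinearMap.ext fun x => ?_
      rw [hS', trD_par, LinearEquiv.apply_symm_apply]
    rw [this]
    exact hsign
  exact full hφ i r hir hri h0 hparalg hc y hy E hE hSalg

end TRANS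

end Pool.Agent.Helper96.VH
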